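import Pool.Agent.Helper44_Art.Stmt

set_option autoImplicit false

namespace Art
namespace H44

theorem ficomap {G G' : Type} [Group G] [Group G'] (f : G' →* G) (K : Subgroup G)
    [hK : K.FiniteIndex] : (K.comap f).FiniteIndex := by
  constructor
  rw [Subgroup.index_comap]
  exact fun h => hK.index_ne_zero (Subgroup.index_eq_zero_of_relIndex_eq_zero h)

theorem full : FullStmt := by
  intro C G _ _ ι ⟨H, hι, ρ, hfi, hρ⟩ K hK
  have := hfi
  have := hK
  let P : Subgroup G := (K.comap ρ).map H.subtype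
  have : (K.comap ρ).FiniteIndex := ficomap ρ K
  have : P.FiniteIndex := by
    constructor
    rw [Subgroup.index_map]
    simp only [Subgroup.ker_subtype, sup_bot_eq, Subgroup.range_subtype]
    exact mul_ne_zero (Subgroup.FiniteIndex.index_ne_zero) hfi.index_ne_zero
  refine ⟨P.normalCore, P.normalCore_normal, inferInstance, ?_⟩
  intro c hc
  have h1 : ι c ∈ P := P.normalCore_le hc
  obtain ⟨h, hh, he⟩ := h1
  have h2 : h = ⟨ι c, hι c⟩ := Subtype.ext he
  rw [h2] at hh
  have h3 := hρ c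
  simp only [SetLike.mem_coe, Subgroup.mem_comap] at hh
  rw [h3] at hh
  exact hh

theorem mid : MidStmt := by
  intro C B G _ _ _ ι κ ⟨H, hι, ρ, hfi, hρ⟩
  have := hfi
  refine ⟨H.comap κ, fun c => hι c,
    ρ.comp ((κ.comp (H.comap κ).subtype).codRestrict H (fun x => x.2)), ?_, ?_⟩
  · exact ficomap κ H
  · intro c
    exact hρ c

theorem closed : ClosedStmt := by
  intro C G _ _ ι ⟨H, hι, ρ, hfi, hρ⟩ hRF g hg
  have := hfi
  have := hRF
  by_cases hgH : g ∈ H
  · let c0 : C := ρ ⟨g, hgH⟩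
    have hk : g * (ι c0)⁻¹ ≠ 1 := by
      intro h
      exact hg ⟨c0, (mul_inv_eq_one.1 h).symm⟩
    obtain ⟨N1, hN1⟩ := Group.exists_finiteIndexNormalSubgroup_notMem _ hk
    let P : Subgroup G :=
      ((N1.toSubgroup.comap H.subtype ⊓ (N1.toSubgroup.comap ι).comap ρ)).map H.subtype
    have : (N1.toSubgroup).FiniteIndex := N1.isFiniteIndex'
    have i1 : (N1.toSubgroup.comap H.subtype).FiniteIndex := ficomap _ _
    have i2 : (N1.toSubgroup.comap ι).FiniteIndex := ficomap _ _
    have i3 : ((N1.toSubgroup.comap ι).comap ρ).FiniteIndex := ficomap _ _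
    have : P.FiniteIndex := by
      constructor
      rw [Subgroup.index_map]
      simp only [Subgroup.ker_subtype, sup_bot_eq, Subgroup.range_subtype]
      exact mul_ne_zero (Subgroup.FiniteIndex.index_ne_zero) hfi.index_ne_zero
    refine ⟨P.normalCore, P.normalCore_normal, inferInstance, ?_⟩
    intro c hc
    have h1 := P.normalCore_le hc
    obtain ⟨n, ⟨hn1, hn2⟩, hne⟩ := h1
    simp only [SetLike.mem_coe, Subgroup.coe_subtype] at hn1 hn2 hne
    -- g = n * ι c
    have hgn : g = n.1 * ι c := by rw [hne]; group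
    have h2 : (⟨g, hgH⟩ : H) = n * ⟨ι c, hι c⟩ := Subtype.ext hgn
    have h3 : c0 = ρ n * c := by
      show ρ ⟨g, hgH⟩ = _
      rw [h2, map_mul, hρ]
    apply hN1
    show g * (ι c0)⁻¹ ∈ N1.toSubgroup
    have h4 : g * (ι c0)⁻¹ = n.1 * (ι (ρ n))⁻¹ := by
      rw [h3, hgn, map_mul]; group
    rw [h4]
    exact N1.toSubgroup.mul_mem hn1 (N1.toSubgroup.inv_mem hn2)
  · refine ⟨H.normalCore, H.normalCore_normal, inferInstance, ?_⟩
    intro c hc
    apply hgH
    have h1 := H.normalCore_le hc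
    have h2 := H.mul_mem h1 (hι c)
    simpa using h2

theorem vr_injective {C G : Type} [Group C] [Group G] (ι : C →* G) (h : VR ι) :
    Function.Injective ι := by
  obtain ⟨H, hι, ρ, hfi, hρ⟩ := h
  intro a b hab
  rw [← hρ a, ← hρ b]
  congr 1
  exact Subtype.ext hab

end H44
end Art
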