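import Pool.Agent.Helper44_Art.Stmt

set_option autoImplicit false

namespace Art

theorem map_alt {G H : Type} [Monoid G] [Monoid H] (φ : G →* H) (m : ℕ) (a b : G) :
    φ (alt m a b) = alt m (φ a) (φ b) := by
  unfold alt
  rw [map_list_prod, List.map_map]
  congr 1
  apply List.map_congr_left
  intro k _
  simp only [Function.comp]
  split_ifs <;> rfl

theorem alt_zero {G : Type} [Monoid G] (a b : G) : alt 0 a b = 1 := by simp [alt]

theorem alt_one {G : Type} [Monoid G] (a b : G) : alt 1 a b = a := by simp [alt]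

theorem alt_two {G : Type} [Monoid G] (a b : G) : alt 2 a b = a * b := by
  simp [alt, List.range_succ]

/-- Peel off the first letter. -/
theorem alt_succ {G : Type} [Monoid G] (m : ℕ) (a b : G) : alt (m + 1) a b = a * alt m b a := by
  unfold alt
  rw [List.range_succ_eq_map, List.map_cons, List.prod_cons, List.map_map]
  simp only [Even.zero, if_true]
  congr 2
  apply List.map_congr_left
  intro k _
  simp only [Function.comp, Nat.succ_eq_add_one, Nat.even_add_one]
  by_cases h : Even k <;> simp [h]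

theorem alt_two_mul {G : Type} [Monoid G] (k : ℕ) (a b : G) : alt (2 * k) a b = (a * b) ^ k := by
  induction k with
  | zero => simp [alt]
  | succ k ih =>
    rw [show 2 * (k + 1) = (2 * k + 1) + 1 by ring, alt_succ, alt_succ, ih, ← mul_assoc, pow_succ']

theorem alt_two_mul_add_one {G : Type} [Monoid G] (k : ℕ) (a b : G) :
    alt (2 * k + 1) a b = (a * b) ^ k * a := by
  induction k with
  | zero => simp [alt]
  | succ k ih =>
    rw [show 2 * (k + 1) + 1 = (2 * k + 1) + 1 + 1 by ring, alt_succ, alt_succ, ih, pow_succ',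
      ← mul_assoc, ← mul_assoc]

/-- Relator in terms of `alt`. -/
theorem mem_rel_iff {S : Type} (M : CoxeterMatrix S) (r : FreeGroup S) :
    r ∈ rel M ↔ ∃ i j : S, M.M i j ≠ 0 ∧
      r = alt (M.M i j) (FreeGroup.of i) (FreeGroup.of j) *
        (alt (M.M i j) (FreeGroup.of j) (FreeGroup.of i))⁻¹ := Iff.rfl

theorem lift : LiftStmt := by
  intro S M G _ f hf
  refine ⟨PresentedGroup.toGroup (f := f) ?_, fun s => PresentedGroup.toGroup.of _⟩
  intro r hr
  obtain ⟨i, j, hij, rfl⟩ := (mem_rel_iff M r).1 hr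
  rw [map_mul, map_inv, map_alt, map_alt, FreeGroup.lift_apply_of, FreeGroup.lift_apply_of,
    hf i j hij, mul_inv_cancel]

theorem relHolds : RelStmt := by
  intro S M s t h
  have h1 : PresentedGroup.mk (rel M) (alt (M.M s t) (FreeGroup.of s) (FreeGroup.of t) *
        (alt (M.M s t) (FreeGroup.of t) (FreeGroup.of s))⁻¹) = 1 := by
    apply PresentedGroup.one_of_mem
    exact (mem_rel_iff M _).2 ⟨s, t, h, rfl⟩
  rw [map_mul, map_inv, map_alt, map_alt, mul_inv_eq_one] at h1
  exact h1

theorem ext : ExtStmt := by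
  intro S M G _ Φ Ψ h
  exact PresentedGroup.ext h

theorem closure_gen {S : Type} (M : CoxeterMatrix S) :
    Subgroup.closure (Set.range (gen M)) = ⊤ := PresentedGroup.closure_range_of _

theorem res_apply {S : Type} (M : CoxeterMatrix S) (T : Set S) (x y : T) :
    (res M T).M x y = M.M x.1 y.1 := rfl

theorem inc : IncStmt := by
  intro S M T
  exact lift (res M T) (fun x => gen M x.1) (fun x y h => relHolds M x.1 y.1 h)

/-- Inclusion of parabolic subgroups. -/
theorem incSet {S : Type} (M : CoxeterMatrix S) (T U : Set S) (h : T ⊆ U) :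
    ∃ Φ : Gp (res M T) →* Gp (res M U), ∀ x : T,
      Φ (gen (res M T) x) = gen (res M U) ⟨x.1, h x.2⟩ :=
  lift (res M T) (fun x => gen (res M U) ⟨x.1, h x.2⟩)
    (fun x y hxy => relHolds (res M U) ⟨x.1, h x.2⟩ ⟨y.1, h y.2⟩ hxy)

end Art
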