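import Pool.Agent.Helper44_Art.Am1
import Pool.Agent.Helper44_Art.Retr
import Pool.Agent.Helper18_Art.Amf
import Pool.Agent.Helper18_Art.Prin
import Pool.Agent.Helper48_Art.Base1
import Pool.Agent.Helper48_Art.Refl
import Pool.Agent.Helper48_Art.Vr1
import Pool.Agent.Helper50_Art.Glue
import Pool.Agent.Helper51_Art.Dih
import Pool.Agent.Helper51_Art.Ind
import Pool.Agent.Helper51_Art.Ret
import Pool.Agent.Helper81_Art.Act

set_option autoImplicit false

namespace Art
namespace H44

theorem prinP : PrinStmt := by
  first
  | exact Art.H18.prin Art.H18.amf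
  | exact Art.H18.prin

theorem glueP : GlueStmt := Art.H50.glue prinP closed full mid

theorem vr1P : VR1Stmt := Art.H48.vr1 Art.H48.refl Art.H81.act Art.H51.ret

theorem am1P : Am1Stmt := am1 glueP vr1P

theorem dihP : DihStmt := Art.H51.dih prinP

theorem triFreeP : TriFreeStmt := Art.H51.triFree am1P Art.H48.base1 dihP

end H44
end Art

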