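import Pool.Agent.Helper44_Art.Stmt
import Pool.Agent.Helper44_Art.Api

set_option autoImplicit false

namespace Art
namespace H44

theorem am1 (hG : GlueStmt) (hV : VR1Stmt) : Am1Stmt := by
  intro S _ M S1 S2 hc hx h0 h1 h2
  exact hG M S1 S2 hc hx (fun Φ hΦ => hV M (S1 ∩ S2) h0 Φ hΦ) h1 h2

end H44
end Art
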