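import Pool.Agent.Helper44_Art.Stmt5
import Pool.Agent.Helper44_Art.Api

set_option autoImplicit false

namespace Art
namespace H44

theorem cl_aux (prd : ProdStmt) (base : Base1Stmt) (dih : DihStmt) (h233 : T233Stmt)
    (h234 : T234Stmt) (h333 : T333Stmt) (h244 : T244Stmt) {S : Type} (M : CoxeterMatrix S)
    (h : CliqueH M) :
    ∀ n : ℕ, ∀ (T : Type) [Fintype T], Fintype.card T = n → ∀ (N : CoxeterMatrix T) (j : T → S),
      Function.Injective j → (∀ a b, N.M a b = M.M (j a) (j b)) → (∀ a b, N.M a b ≠ 0) →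
      RF (Gp N) := by
  intro n
  induction n using Nat.strong_induction_on with
  | _ n ih =>
  intro T _ hcard N j hj hN hf
  classical
  have sub : ∀ P : Set T, (∃ x, x ∉ P) → RF (Gp (res N P)) := by
    rintro P ⟨x, hx⟩
    have : Fintype P := Fintype.ofFinite P
    have hlt : Fintype.card P < n := by
      rw [← hcard]
      exact Fintype.card_lt_of_injective_of_notMem (fun u : P => u.1) Subtype.val_injective
        (b := x) (by simpa using hx)
    exact ih _ hlt P rfl (res N P) (fun u => j u.1) (fun a b e => Subtype.ext (hj e))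
      (fun a b => hN a.1 b.1) (fun a b => hf a.1 b.1)
  rcases Nat.lt_or_ge 1 n with hn | hn
  swap
  · exact base N (Fintype.card_le_one_iff_subsingleton.1 (by omega))
  rcases Nat.lt_or_ge 2 n with hn2 | hn2
  swap
  · have h22 : (Finset.univ : Finset T).card = 2 := by rw [Finset.card_univ]; omega
    obtain ⟨a, b, hab, huniv⟩ := Finset.card_eq_two.1 h22
    refine dih N a b hab (fun x => ?_) (hf a b)
    have hx := Finset.mem_univ x
    rw [huniv, Finset.mem_insert, Finset.mem_singleton] at hx
    exact hx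
  by_cases hirr : Irr N
  · by_cases htri : Tri N
    · obtain ⟨a, b, c, hab, hac, hbc, hall, h1 | h1 | h1 | h1⟩ := htri
      · exact h233 N a b c hab hac hbc hall h1.1 h1.2.1 h1.2.2
      · exact h234 N a b c hab hac hbc hall h1.1 h1.2.1 h1.2.2
      · exact h333 N a b c hab hac hbc hall h1.1 h1.2.1 h1.2.2
      · exact h244 N a b c hab hac hbc hall h1.1 h1.2.1 h1.2.2
    · exact h T N j hj hN hf hirr (by omega) htri
  · unfold Irr at hirr
    push Not at hirr
    obtain ⟨P, ⟨x, hx⟩, ⟨y, hy⟩, hP⟩ := hirr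
    exact prd N P Pᶜ (Set.union_compl_self _) (Set.inter_compl_self _) hP (sub P ⟨y, hy⟩)
      (sub Pᶜ ⟨x, fun h' => h' hx⟩)

theorem cl (prd : ProdStmt) (base : Base1Stmt) (dih : DihStmt) (h233 : T233Stmt)
    (h234 : T234Stmt) (h333 : T333Stmt) (h244 : T244Stmt) : CLStmt := by
  intro S M h T _ N j hj hN hf
  exact cl_aux prd base dih h233 h234 h333 h244 M h _ T rfl N j hj hN hf

end H44
end Art
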