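import Pool.Agent.Helper44_Art.Stmt3
import Pool.Agent.Helper26_Art.Lett

/-!
# Squad ART: module LETT' (letters which need not lift the reflections)
-/

set_option autoImplicit false

namespace Art.H44

open Art Art.H26

theorem lett' : LettStmt' := by
  classical
  intro S _ M S0 P A _ a hG ha
  -- an injective numbering
  let enc : S → ℕ := fun s => ((Fintype.equivFin S) s : ℕ)
  have henc : ∀ s t, enc s = enc t → s = t := by
    intro s t h
    exact (Fintype.equivFin S).injective (Fin.ext h)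
  -- patterns
  have hat : ∀ x y : S, ∃ (q : ℕ) (α : ℕ → A), (x ∈ S0 → y ∈ S0 → x ≠ y → M.M x y ≠ 0 →
      α 0 = a x ∧ α (M.M x y - 1) = a y ∧ (∀ i, α (i + q) = α i) ∧ q ∣ M.M x y ∧
      (∀ i, α i = a x ∨ α i = a y) ∧
      (∀ s t : S, s ≠ t → M.M s t ≠ 0 → M.M x y ∣ M.M s t ∨
        q ∣ M.M x y / Nat.gcd (M.M s t) (M.M x y))) := by
    intro x y
    by_cases h : x ∈ S0 ∧ y ∈ S0 ∧ x ≠ y ∧ M.M x y ≠ 0
    · obtain ⟨hx, hy, hxy, hM⟩ := h
      obtain ⟨q, hq, hqm, hqq⟩ := hG x hx y hy hxy hM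
      refine ⟨q, fun i => if i % q = q - 1 then a y else a x, fun _ _ _ _ => ⟨?_, ?_, ?_, hqm, ?_,
        hqq⟩⟩
      · have h2 := hq.two_le
        have : ¬ (0 % q = q - 1) := by rw [Nat.zero_mod]; omega
        exact if_neg this
      · have h2 := hq.two_le
        obtain ⟨e, he⟩ := hqm
        have he0 : e ≠ 0 := by
          rintro rfl
          exact hM (by rw [he, mul_zero])
        obtain ⟨e', rfl⟩ := Nat.exists_eq_succ_of_ne_zero he0
        have : (M.M x y - 1) % q = q - 1 := by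
          have h3 : M.M x y - 1 = (q - 1) + q * e' := by
            rw [he, Nat.mul_succ]
            omega
          rw [h3, Nat.add_mul_mod_self_left, Nat.mod_eq_of_lt (by omega)]
        exact if_pos this
      · intro i
        simp only [Nat.add_mod_right]
      · intro i
        by_cases h3 : i % q = q - 1
        · exact Or.inr (if_pos h3)
        · exact Or.inl (if_neg h3)
    · exact ⟨0, fun _ => 1, fun hx hy hxy hM => absurd ⟨hx, hy, hxy, hM⟩ h⟩
  choose q α hα using hat
  have hperm : ∀ x y : S, x ∈ S0 → y ∈ S0 → x ≠ y → M.M x y ≠ 0 →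
      ∀ i, α x y (i + M.M x y) = α x y i := by
    intro x y hx hy hxy hM i
    obtain ⟨-, -, hper, hqm, -, -⟩ := hα x y hx hy hxy hM
    apply per_modEq _ _ hper
    obtain ⟨e, he⟩ := hqm
    unfold Nat.ModEq
    rw [he, Nat.add_mul_mod_self_left]
  -- the letters
  let H1 : P.F → Prop := fun t => ∃ z, z ∈ S0 ∧ t = P.f z
  let H2 : P.F → Prop := fun t => ∃ q : S × S × ℕ, q.1 ∈ S0 ∧ q.2.1 ∈ S0 ∧ q.1 ≠ q.2.1 ∧
    M.M q.1 q.2.1 ≠ 0 ∧ enc q.1 < enc q.2.1 ∧ t = ref P.f q.1 q.2.1 q.2.2
  let ν : P.F → A := fun t =>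
    if h : H1 t then a h.choose
    else if h : H2 t then α h.choose.1 h.choose.2.1 h.choose.2.2 else 1
  have hν1 : ∀ z ∈ S0, ν (P.f z) = a z := by
    intro z hz
    have h : H1 (P.f z) := ⟨z, hz, rfl⟩
    change (if h : H1 (P.f z) then a h.choose
      else if h : H2 (P.f z) then α h.choose.1 h.choose.2.1 h.choose.2.2 else 1) = a z
    rw [dif_pos h]
    congr 1
    exact P.inj _ _ h.choose_spec.2.symm
  have hA : ∀ x ∈ S0, ∀ y ∈ S0, x ≠ y → M.M x y ≠ 0 → enc x < enc y → ∀ i,
      ν (ref P.f x y i) = α x y i := by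
    intro x hx y hy hxy hM hlt i
    obtain ⟨h0, hl, -, -, -, -⟩ := hα x y hx hy hxy hM
    have hper := hperm x y hx hy hxy hM
    by_cases h : H1 (ref P.f x y i)
    · obtain ⟨z, hz, hzt⟩ := h
      rw [hzt, hν1 z hz]
      have hs := supp_of_eq P x y z i hM hzt
      rcases hs.1 with rfl | rfl
      · rw [← h0]
        apply per_modEq _ _ hper
        rw [← ref_zero P z y] at hzt
        exact ((ref_eq_iff P z y hxy hM _ _).1 hzt).symm
      · rw [← hl]
        apply per_modEq _ _ hper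
        rw [← ref_last P x z hxy hM] at hzt
        exact ((ref_eq_iff P x z hxy hM _ _).1 hzt).symm
    · have h2 : H2 (ref P.f x y i) := ⟨(x, y, i), hx, hy, hxy, hM, hlt, rfl⟩
      change (if h : H1 (ref P.f x y i) then a h.choose
        else if h : H2 (ref P.f x y i) then α h.choose.1 h.choose.2.1 h.choose.2.2 else 1) = _
      rw [dif_neg h, dif_pos h2]
      obtain ⟨hq1, hq2, hq3, hq4, hq5, hq6⟩ := h2.choose_spec
      set q := h2.choose with hq
      have hnx : ref P.f x y i ≠ P.f x := fun e => h ⟨x, hx, e⟩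
      have hny : ref P.f x y i ≠ P.f y := fun e => h ⟨y, hy, e⟩
      have hsx : InSupp P.f x y i x := ⟨Or.inl rfl, Or.inr ⟨hnx, hny⟩⟩
      have hsy : InSupp P.f x y i y := ⟨Or.inr rfl, Or.inr ⟨hnx, hny⟩⟩
      have hu := P.uniq x y q.1 q.2.1 i q.2.2 hM hq4 hq6
      have h3 := ((hu x).1 hsx).1
      have h4 := ((hu y).1 hsy).1
      have h5 : x = q.1 ∧ y = q.2.1 := by
        rcases h3 with h3 | h3
        · rcases h4 with h4 | h4
          · exact absurd (h3.trans h4.symm) hxy
          · exact ⟨h3, h4⟩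
        · rcases h4 with h4 | h4
          · exfalso
            rw [← h3, ← h4] at hq5
            omega
          · exact absurd (h3.trans h4.symm) hxy
      rw [← h5.1, ← h5.2]
      apply per_modEq _ _ hper
      have h6 : ref P.f x y i = ref P.f x y q.2.2 := by
        rw [hq6, ← h5.1, ← h5.2]
      exact ((ref_eq_iff P x y hxy hM _ _).1 h6).symm
  have hB : ∀ x ∈ S0, ∀ y ∈ S0, x ≠ y → M.M x y ≠ 0 → enc y < enc x → ∀ i,
      ν (ref P.f x y i) = α y x ((M.M y x - 1) * (i + 1)) := by
    intro x hx y hy hxy hM hlt i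
    have hM' : M.M y x ≠ 0 := by rw [M.symmetric y x]; exact hM
    rw [ref_swap P x y hxy hM, hA y hy x hx hxy.symm hM' hlt, M.symmetric x y]
  -- every letter is a generator
  have hval : ∀ x ∈ S0, ∀ y ∈ S0, x ≠ y → M.M x y ≠ 0 → ∀ i,
      ν (ref P.f x y i) = a x ∨ ν (ref P.f x y i) = a y := by
    intro x hx y hy hxy hM i
    rcases lt_or_ge (enc x) (enc y) with hlt | hge
    · rw [hA x hx y hy hxy hM hlt]
      exact (hα x y hx hy hxy hM).2.2.2.2.1 i
    · have hlt : enc y < enc x := lt_of_le_of_ne hge (fun e => hxy (henc _ _ e).symm)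
      have hM' : M.M y x ≠ 0 := by rw [M.symmetric y x]; exact hM
      rw [hB x hx y hy hxy hM hlt]
      exact ((hα y x hy hx hxy.symm hM').2.2.2.2.1 _).symm
  refine ⟨ν, ⟨hν1, ?_, ?_, ?_⟩⟩
  · intro x hx y hy hxy hM i
    have hc := ha x hx y hy hM
    rcases hval x hx y hy hxy hM i with h1 | h1 <;>
      rcases hval x hx y hy hxy hM (i + 1) with h2 | h2 <;> rw [h1, h2]
    · exact hc
    · exact hc.symm
  · intro x hx y hy hxy hM s t hst hMst hnd i
    rcases lt_or_ge (enc x) (enc y) with hlt | hge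
    · rw [hA x hx y hy hxy hM hlt, hA x hx y hy hxy hM hlt]
      obtain ⟨-, -, hper, -, -, hqq⟩ := hα x y hx hy hxy hM
      rcases hqq s t hst hMst with h | h
      · exact absurd h hnd
      · apply per_modEq _ _ hper
        obtain ⟨e, he⟩ := h
        unfold Nat.ModEq
        rw [he, Nat.add_mul_mod_self_left]
    · have hlt : enc y < enc x := lt_of_le_of_ne hge (fun e => hxy (henc _ _ e).symm)
      have hM' : M.M y x ≠ 0 := by rw [M.symmetric y x]; exact hM
      rw [hB x hx y hy hxy hM hlt, hB x hx y hy hxy hM hlt]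
      obtain ⟨-, -, hper, -, -, hqq⟩ := hα y x hy hx hxy.symm hM'
      rw [M.symmetric y x] at hqq
      rcases hqq s t hst hMst with h | h
      · exact absurd h hnd
      · apply per_modEq _ _ hper
        obtain ⟨e, he⟩ := h
        unfold Nat.ModEq
        have e1 : (M.M y x - 1) * (i + M.M x y / Nat.gcd (M.M s t) (M.M x y) + 1) =
            (M.M y x - 1) * (i + 1) + q y x * ((M.M y x - 1) * e) := by
          rw [he]
          ring
        rw [e1, Nat.add_mul_mod_self_left]
  · intro x hx y hy hM i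
    by_cases hxy : x = y
    · subst hxy
      rw [ref_self, hν1 x hx]
      apply Subgroup.subset_closure
      exact ⟨x, ⟨Or.inl rfl, Or.inl (ref_self P x i)⟩, rfl⟩
    · by_cases h : H1 (ref P.f x y i)
      · obtain ⟨z, hz, hzt⟩ := h
        have hs := supp_of_eq P x y z i hM hzt
        rw [hzt, hν1 z hz]
        apply Subgroup.subset_closure
        exact ⟨z, hs, rfl⟩
      · have hnx : ref P.f x y i ≠ P.f x := fun e => h ⟨x, hx, e⟩
        have hny : ref P.f x y i ≠ P.f y := fun e => h ⟨y, hy, e⟩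
        have hsx : InSupp P.f x y i x := ⟨Or.inl rfl, Or.inr ⟨hnx, hny⟩⟩
        have hsy : InSupp P.f x y i y := ⟨Or.inr rfl, Or.inr ⟨hnx, hny⟩⟩
        apply Subgroup.subset_closure
        rcases hval x hx y hy hxy hM i with h1 | h1
        · exact ⟨x, hsx, h1⟩
        · exact ⟨y, hsy, h1⟩

end Art.H44
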