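import Pool.Agent.Helper44_Art.Stmt5
import Pool.Agent.Helper44_Art.Api

set_option autoImplicit false

namespace Art
namespace H44

theorem vr2' (hF : Fin2Stmt) (hL : LettStmt') (hW : WinStmt') (hV : VrwStmt) : VR2Stmt' := by
  intro S _ M S0 hD hG Φ hΦ
  classical
  obtain ⟨P⟩ := hF M
  let a : S → Gp (res M S0) := fun s => if h : s ∈ S0 then gen (res M S0) ⟨s, h⟩ else 1
  have ha : ∀ (s : S) (h : s ∈ S0), a s = gen (res M S0) ⟨s, h⟩ := fun s h => dif_pos h
  have hrel : ∀ x ∈ S0, ∀ y ∈ S0, M.M x y ≠ 0 →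
      alt (M.M x y) (a x) (a y) = alt (M.M x y) (a y) (a x) := by
    intro x hx y hy hxy
    rw [ha x hx, ha y hy]
    exact relHolds (res M S0) ⟨x, hx⟩ ⟨y, hy⟩ hxy
  obtain ⟨ν, hν⟩ := hL M S0 P a hG hrel
  have hwin := hW M S0 P a ν hD hrel hν
  have hpow : ∀ s t, M.M s t ≠ 0 → (P.f s * P.f t) ^ M.M s t = 1 := by
    intro s t hst
    by_cases h : s = t
    · subst h
      rw [P.sq, one_pow]
    · rw [← P.ord s t h hst]
      exact pow_orderOf_eq_one _
  refine hV M P.f (blocked M S0 P.f) ν P.sq hpow hwin Φ S0 (fun x => gen (res M S0) x)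
    (closure_gen _) hΦ ?_ ?_
  · intro x
    refine ⟨x.1, x.2, x.1, x.2, ?_, 0, ?_⟩
    · rw [M.diagonal]
      exact one_ne_zero
    · rw [ref, pow_zero, one_mul]
  · intro x
    rw [hν.one x.1 x.2, ha x.1 x.2]

theorem am2' (hGlue : GlueStmt) (hVR2 : VR2Stmt') : Am2Stmt' := by
  intro S _ M S1 S2 hU hX hD hG hR1 hR2
  exact hGlue M S1 S2 hU hX (fun Φ hΦ => hVR2 M (S1 ∩ S2) hD hG Φ hΦ) hR1 hR2

theorem goodLabel_res {S : Type} (M : CoxeterMatrix S) (T : Set S) (m : ℕ)
    (h : GoodLabel M m) : GoodLabel (res M T) m := by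
  obtain ⟨q, hq, hqm, hqq⟩ := h
  exact ⟨q, hq, hqm, fun s t hst hM => hqq s.1 t.1 (fun e => hst (Subtype.ext e)) hM⟩

theorem LD_res {S : Type} (M : CoxeterMatrix S) (T : Set S) (h : LD M) : LD (res M T) := by
  intro s t hst x hx y hy z hz hxy hxz hyz g1 g2 g3
  exact h s.1 t.1 hst x.1 ⟨fun e => hx.1 (Subtype.ext e), hx.2⟩ y.1
    ⟨fun e => hy.1 (Subtype.ext e), hy.2⟩ z.1 ⟨fun e => hz.1 (Subtype.ext e), hz.2⟩
    (fun e => hxy (Subtype.ext e)) (fun e => hxz (Subtype.ext e))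
    (fun e => hyz (Subtype.ext e)) g1 g2 g3

theorem LG_res {S : Type} (M : CoxeterMatrix S) (T : Set S) (h : LG M) : LG (res M T) := by
  intro s t hst x hx y hy hxy g
  exact goodLabel_res M T _ (h s.1 t.1 hst x.1 ⟨fun e => hx.1 (Subtype.ext e), hx.2⟩ y.1
    ⟨fun e => hy.1 (Subtype.ext e), hy.2⟩ (fun e => hxy (Subtype.ext e)) g)

theorem CliqueRF_res {S : Type} (M : CoxeterMatrix S) (T : Set S) (h : CliqueRF M) :
    CliqueRF (res M T) := by
  intro U _ N j hj hN hf
  exact h U N (fun u => (j u).1) (fun a b e => hj (Subtype.ext e)) (fun a b => hN a b) hf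

theorem ug_aux (am2 : Am2Stmt') :
    ∀ n : ℕ, ∀ (S : Type) [Fintype S], Fintype.card S = n → ∀ M : CoxeterMatrix S,
      LD M → LG M → CliqueRF M → RF (Gp M) := by
  intro n
  induction n using Nat.strong_induction_on with
  | _ n ih =>
  intro S _ hcard M h1 h2 h3
  classical
  have sub : ∀ T : Set S, (∃ x, x ∉ T) → RF (Gp (res M T)) := by
    rintro T ⟨x, hx⟩
    have : Fintype T := Fintype.ofFinite T
    have hlt : Fintype.card T < n := by
      rw [← hcard]
      exact Fintype.card_lt_of_injective_of_notMem (fun u : T => u.1) Subtype.val_injective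
        (b := x) (by simpa using hx)
    exact ih _ hlt T rfl (res M T) (LD_res M T h1) (LG_res M T h2) (CliqueRF_res M T h3)
  by_cases hinf : ∃ s t, M.M s t = 0
  · obtain ⟨s, t, hst⟩ := hinf
    have hI : {x | M.M s x ≠ 0} ∩ {x | x ≠ s} = lk M s := by
      ext x
      exact and_comm
    refine am2 M {x | M.M s x ≠ 0} {x | x ≠ s} ?_ ?_ ?_ ?_ (sub _ ⟨t, ?_⟩) (sub _ ⟨s, ?_⟩)
    · ext x
      simp only [Set.mem_union, Set.mem_ofPred_eq, Set.mem_univ, iff_true]
      by_cases hx : x = s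
      · left
        rw [hx, M.diagonal s]
        norm_num
      · right; exact hx
    · intro x _ hx y _ hy
      simp only [Set.mem_ofPred_eq, not_not] at hx hy
      rw [hx]; exact hy
    · rw [hI]
      exact h1 s t hst
    · rw [hI]
      exact h2 s t hst
    · simp only [Set.mem_ofPred_eq, not_not]; exact hst
    · simp
  · push Not at hinf
    exact h3 S M id Function.injective_id (fun a b => rfl) hinf

theorem ug (am2 : Am2Stmt') : UGStmt := by
  intro S _ M h1 h2 h3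
  exact ug_aux am2 _ S rfl M h1 h2 h3

end H44
end Art
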