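import Pool.Agent.Helper44_Art.Stmt2

set_option autoImplicit false

/-!
# Improved wave 2: prime power labels are always good
-/

namespace Art

/-- The label `m` is good: for some prime `q ∣ m` every finite label `m'` of `M` is a multiple of
`m` or has smaller `q`-part than `m` (that is `q ∣ m / gcd m' m`). -/
def GoodLabel {S : Type} (M : CoxeterMatrix S) (m : ℕ) : Prop :=
  ∃ q : ℕ, q.Prime ∧ q ∣ m ∧ ∀ s t : S, s ≠ t → M.M s t ≠ 0 →
    m ∣ M.M s t ∨ q ∣ m / Nat.gcd (M.M s t) m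

/-- The arithmetic condition on the labels inside `S0`. -/
def CondG' {S : Type} (M : CoxeterMatrix S) (S0 : Set S) : Prop :=
  ∀ x ∈ S0, ∀ y ∈ S0, x ≠ y → M.M x y ≠ 0 → GoodLabel M (M.M x y)

/-- The properties of the letters of the blocked reflections. -/
structure Letters' {S : Type} (M : CoxeterMatrix S) (S0 : Set S) {F A : Type} [Group F] [Group A]
    (f : S → F) (a : S → A) (ν : F → A) : Prop where
  one : ∀ x ∈ S0, ν (f x) = a x
  adj : ∀ x ∈ S0, ∀ y ∈ S0, x ≠ y → M.M x y ≠ 0 → ∀ i : ℕ,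
    alt (M.M x y) (ν (ref f x y i)) (ν (ref f x y (i + 1))) =
      alt (M.M x y) (ν (ref f x y (i + 1))) (ν (ref f x y i))
  per : ∀ x ∈ S0, ∀ y ∈ S0, x ≠ y → M.M x y ≠ 0 → ∀ s t : S, s ≠ t → M.M s t ≠ 0 →
    ¬ M.M x y ∣ M.M s t → ∀ i : ℕ,
    ν (ref f x y (i + M.M x y / Nat.gcd (M.M s t) (M.M x y))) = ν (ref f x y i)
  mem : ∀ x ∈ S0, ∀ y ∈ S0, M.M x y ≠ 0 → ∀ i : ℕ,
    ν (ref f x y i) ∈ Subgroup.closure {c | ∃ s, InSupp f x y i s ∧ c = a s}

/-- LETT'. -/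
def LettStmt' : Prop :=
  ∀ {S : Type} [Fintype S] (M : CoxeterMatrix S) (S0 : Set S) (P : Fin2 M) {A : Type} [Group A]
    (a : S → A), CondG' M S0 →
    (∀ x ∈ S0, ∀ y ∈ S0, M.M x y ≠ 0 → alt (M.M x y) (a x) (a y) = alt (M.M x y) (a y) (a x)) →
    ∃ ν : P.F → A, Letters' M S0 P.f a ν

/-- WIN'. -/
def WinStmt' : Prop :=
  ∀ {S : Type} [Fintype S] (M : CoxeterMatrix S) (S0 : Set S) (P : Fin2 M) {A : Type} [Group A]
    (a : S → A) (ν : P.F → A), CondD M S0 →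
    (∀ x ∈ S0, ∀ y ∈ S0, M.M x y ≠ 0 → alt (M.M x y) (a x) (a y) = alt (M.M x y) (a y) (a x)) →
    Letters' M S0 P.f a ν → Win M P.f (blocked M S0 P.f) ν

/-- VR2'. -/
def VR2Stmt' : Prop :=
  ∀ {S : Type} [Fintype S] (M : CoxeterMatrix S) (S0 : Set S), CondD M S0 → CondG' M S0 →
    ∀ Φ : Gp (res M S0) →* Gp M, (∀ x, Φ (gen (res M S0) x) = gen M x.1) → VR Φ

/-- AM2': the amalgam theorem. -/
def Am2Stmt' : Prop :=
  ∀ {S : Type} [Fintype S] (M : CoxeterMatrix S) (S1 S2 : Set S), S1 ∪ S2 = Set.univ →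
    (∀ x ∈ S1, x ∉ S2 → ∀ y ∈ S2, y ∉ S1 → M.M x y = 0) →
    CondD M (S1 ∩ S2) → CondG' M (S1 ∩ S2) →
    RF (Gp (res M S1)) → RF (Gp (res M S2)) → RF (Gp M)

/-- The arithmetic condition for the labels of edges lying in a triangle. -/
def H2' {S : Type} (M : CoxeterMatrix S) : Prop :=
  ∀ x y z : S, x ≠ y → x ≠ z → y ≠ z → M.M x y ≠ 0 → M.M x z ≠ 0 → M.M y z ≠ 0 →
    GoodLabel M (M.M x y)

/-- All three-generator parabolic subgroups without infinite label and with at least two labels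
`≥ 3` are residually finite. -/
def H3' {S : Type} (M : CoxeterMatrix S) : Prop :=
  ∀ (T : Type) [Fintype T] (N : CoxeterMatrix T) (j : T → S), Function.Injective j →
    (∀ a b, N.M a b = M.M (j a) (j b)) → Fintype.card T = 3 → (∀ a b, N.M a b ≠ 0) →
    ¬ CondD N Set.univ → RF (Gp N)

/-- Theorem U'. -/
def UStmt' : Prop :=
  ∀ {S : Type} [Fintype S] (M : CoxeterMatrix S), H1 M → H2' M → H3' M → RF (Gp M)

end Art
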