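import Pool.Agent.Helper15_Art.Win
import Pool.Agent.Helper44_Art.Stmt3

set_option autoImplicit false

/-!
# Module WIN': the window property for letters which need not lift the reflections
-/

namespace Art.H44

open Art Art.H15

variable {S : Type} {M : CoxeterMatrix S}

theorem exists_sup' (S0 : Set S) (P : Fin2 M) {A : Type} [Group A] (a : S → A) (ν : P.F → A)
    (hL : Letters' M S0 P.f a ν) (x y : S) (hx : x ∈ S0) (hy : y ∈ S0) (hxy : M.M x y ≠ 0)
    (i : ℕ) :
    Sup S0 P a (ref P.f x y i) (ν (ref P.f x y i)) {c | InSupp P.f x y i c} := by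
  have hA : ν (ref P.f x y i) ∈ Subgroup.closure (a '' {c | InSupp P.f x y i c}) := by
    have h1 := hL.mem x hx y hy hxy i
    refine Subgroup.closure_mono ?_ h1
    rintro c ⟨s, hs, rfl⟩
    exact ⟨s, hs, rfl⟩
  have hsub : {c | InSupp P.f x y i c} ⊆ S0 := by
    rintro c ⟨h1 | h1, -⟩
    · rw [h1]; exact hx
    · rw [h1]; exact hy
  have hmem : ∀ c, InSupp P.f x y i c → P.f c ∈
      Subgroup.closure (P.f '' {c | InSupp P.f x y i c}) :=
    fun c hc => Subgroup.subset_closure ⟨c, hc, rfl⟩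
  by_cases h1 : ref P.f x y i = P.f x
  · have hX : {c | InSupp P.f x y i c} = {x} := by
      ext c
      simp only [Set.mem_setOf_eq, Set.mem_singleton_iff]
      constructor
      · rintro ⟨-, h2 | h2⟩
        · exact P.inj _ _ (h2.symm.trans h1)
        · exact absurd h1 h2.1
      · rintro rfl
        exact ⟨Or.inl rfl, Or.inl h1⟩
    have hm : ref P.f x y i ∈ Subgroup.closure (P.f '' {c | InSupp P.f x y i c}) := by
      have hin : InSupp P.f x y i x := ⟨Or.inl rfl, Or.inl h1⟩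
      have h3 := hmem x hin
      rwa [← h1] at h3
    exact ⟨hsub, hm, hA, Or.inl ⟨x, hX, h1⟩⟩
  by_cases h2 : ref P.f x y i = P.f y
  · have hX : {c | InSupp P.f x y i c} = {y} := by
      ext c
      simp only [Set.mem_setOf_eq, Set.mem_singleton_iff]
      constructor
      · rintro ⟨-, h3 | h3⟩
        · exact P.inj _ _ (h3.symm.trans h2)
        · exact absurd h2 h3.2
      · rintro rfl
        exact ⟨Or.inr rfl, Or.inl h2⟩
    have hm : ref P.f x y i ∈ Subgroup.closure (P.f '' {c | InSupp P.f x y i c}) := by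
      have hin : InSupp P.f x y i y := ⟨Or.inr rfl, Or.inl h2⟩
      have h3 := hmem y hin
      rwa [← h2] at h3
    exact ⟨hsub, hm, hA, Or.inl ⟨y, hX, h2⟩⟩
  · have hxne : x ≠ y := by
      rintro rfl
      apply h1
      unfold ref
      rw [P.sq, one_pow, one_mul]
    have hX : {c | InSupp P.f x y i c} = {x, y} := by
      ext c
      simp only [Set.mem_setOf_eq, Set.mem_insert_iff, Set.mem_singleton_iff]
      constructor
      · rintro ⟨h3, -⟩
        exact h3
      · intro h3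
        exact ⟨h3, Or.inr ⟨h1, h2⟩⟩
    have h3 : 3 ≤ M.M x y := by
      have h4 : M.M x y ≠ 1 := M.off_diagonal x y hxne
      have h5 : M.M x y ≠ 2 := by
        intro h6
        rcases ref_two P x y h6 i with h7 | h7
        · exact h1 h7
        · exact h2 h7
      omega
    refine ⟨hsub, ?_, hA, Or.inr ⟨x, y, hxne, hX, h3, (i : ℤ), ref_eq_tz P x y i⟩⟩
    have hx' := hmem x ⟨Or.inl rfl, Or.inr ⟨h1, h2⟩⟩
    have hy' := hmem y ⟨Or.inr rfl, Or.inr ⟨h1, h2⟩⟩
    unfold ref
    exact Subgroup.mul_mem _ (Subgroup.pow_mem _ (Subgroup.mul_mem _ hx' hy') _) hx'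


/-- The letters of two reflections of the same dihedral group at the distance given by the
rotation lemma. -/
theorem letters' (S0 : Set S) (P : Fin2 M) {A : Type} [Group A] (a : S → A) (ν : P.F → A)
    (hL : Letters' M S0 P.f a ν) (x y : S) (hx : x ∈ S0) (hy : y ∈ S0) (hxy : x ≠ y)
    (hM : M.M x y ≠ 0) (s t : S) (hst : s ≠ t) (hMst : M.M s t ≠ 0)
    (i : ℤ) :
    alt (Nat.gcd (M.M s t) (M.M x y)) (ν (tz (P.f x) (P.f y) i))
        (ν (tz (P.f x) (P.f y) (i + ((M.M x y / Nat.gcd (M.M s t) (M.M x y) : ℕ) : ℤ)))) =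
      alt (Nat.gcd (M.M s t) (M.M x y))
        (ν (tz (P.f x) (P.f y) (i + ((M.M x y / Nat.gcd (M.M s t) (M.M x y) : ℕ) : ℤ))))
        (ν (tz (P.f x) (P.f y) i)) := by
  set n : ℕ := (i % (M.M x y : ℤ)).toNat with hn
  have h1 : tz (P.f x) (P.f y) i = ref P.f x y n := tz_nat P x y hM i
  have h2 : ∀ e : ℕ, tz (P.f x) (P.f y) (i + (e : ℤ)) = ref P.f x y (n + e) := by
    intro e
    rw [add_comm i, ← rot_tz, h1]
    unfold ref
    rw [zpow_natCast, ← mul_assoc, ← pow_add, add_comm e n]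
  rw [h2, h1]
  by_cases h3 : M.M x y ∣ M.M s t
  · have hgcd : Nat.gcd (M.M s t) (M.M x y) = M.M x y := Nat.gcd_eq_right h3
    rw [hgcd, Nat.div_self (Nat.pos_of_ne_zero hM)]
    exact hL.adj x hx y hy hxy hM n
  · rw [hL.per x hx y hy hxy hM s t hst hMst h3]

theorem win' : WinStmt' := by
  intro S _ M S0 P A _ a ν hD ha hL v s t hst
  classical
  set T : Set P.F := blocked M S0 P.f with hT
  by_cases hno : ∀ k : ℕ, v * ref P.f s t k * v⁻¹ ∉ T
  · exact Or.inl hno
  right
  push Not at hno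
  obtain ⟨k0, hk0⟩ := hno
  -- the case s = t
  by_cases hs : s = t
  · subst hs
    have hc : ∀ k : ℕ, ref P.f s s k = P.f s := by
      intro k
      unfold ref
      rw [P.sq, one_pow, one_mul]
    have hm : M.M s s = 1 := M.diagonal s
    rw [hc] at hk0
    refine ⟨1, 0, one_pos, one_dvd _, one_pos, ?_, ?_⟩
    · intro k
      rw [hc]
      simp only [Nat.mod_one, iff_true]
      exact hk0
    · intro k _
      rw [hc, hc]
  set m : ℕ := M.M s t with hm
  have hm1 : m ≠ 1 := M.off_diagonal s t hs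
  have hmpos : 0 < m := Nat.pos_of_ne_zero hst
  have hord : orderOf (P.f s * P.f t) = m := P.ord s t hs hst
  have hpm : (P.f s * P.f t) ^ m = 1 := powM P s t hst
  set U : ℕ → P.F := fun k => v * ref P.f s t k * v⁻¹ with hUdef
  have hUz : ∀ k : ℕ, U k = v * tz (P.f s) (P.f t) (k : ℤ) * v⁻¹ := by
    intro k
    simp only [hUdef]
    rw [ref_eq_tz]
  have hUmul : ∀ k l : ℕ, U k * U l = v * (P.f s * P.f t) ^ ((k : ℤ) - (l : ℤ)) * v⁻¹ := by
    intro k l
    rw [hUz, hUz, conj_mul _ _ _ (P.sq s) (P.sq t)]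
  have hUsq : ∀ k : ℕ, U k * U k = 1 := by
    intro k
    rw [hUmul, sub_self, zpow_zero, mul_one, mul_inv_cancel]
  have hUinv : ∀ k : ℕ, (U k)⁻¹ = U k := fun k => inv_eq_of_mul_eq_one_right (hUsq k)
  have hdvd : ∀ z : ℤ, v * (P.f s * P.f t) ^ z * v⁻¹ = 1 ↔ (m : ℤ) ∣ z := by
    intro z
    rw [conj_eq_one_iff, ← hord]
    exact orderOf_dvd_iff_zpow_eq_one.symm
  have hUeq : ∀ k l : ℕ, U k = U l ↔ (m : ℤ) ∣ (k : ℤ) - (l : ℤ) := by
    intro k l
    rw [← hdvd, ← hUmul]
    constructor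
    · intro h
      rw [h, hUsq]
    · intro h
      have h1 := eq_inv_of_mul_eq_one_left h
      rw [h1, hUinv]
  -- support data
  have hsup : ∀ k l : ℕ, U k ∈ T → U l ∈ T → U k ≠ U l →
      Concl S0 P (U k) (U l) (ν (U k)) (ν (U l)) := by
    intro k l hk hl hne
    obtain ⟨x, hx, y, hy, hxy, i, hi⟩ := hk
    obtain ⟨z, hz, w, hw, hzw, j, hj⟩ := hl
    have s1 := exists_sup' S0 P a ν hL x y hx hy hxy i
    have s2 := exists_sup' S0 P a ν hL z w hz hw hzw j
    have hpow : (ref P.f x y i * ref P.f z w j) ^ P.K = 1 := by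
      rw [← hi, ← hj, hUmul]
      obtain ⟨e, he⟩ := P.dvd s t hst
      rw [conj_pow, ← zpow_natCast, ← zpow_mul]
      rw [hdvd]
      exact ⟨((k : ℤ) - (l : ℤ)) * (e : ℤ), by rw [he]; push_cast; ring⟩
    have hcr := P.supp x y z w i j hxy hzw hpow
    rw [← hi] at s1
    rw [← hj] at s2
    exact cross S0 P a hD ha s1 s2 (fun c hc c' hc' => hcr c c' hc hc') hne
  by_cases hB : ∀ k l : ℕ, U k ∈ T → U l ∈ T → U k ≠ U l →
      (U k * U l = U l * U k ∧ ν (U k) * ν (U l) = ν (U l) * ν (U k))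
  · refine caseB U m hmpos T ν hUeq ?_ k0 hk0
    intro k l hk hl hne
    obtain ⟨h1, h2⟩ := hB k l hk hl hne
    refine ⟨?_, h2⟩
    rw [← hdvd]
    have h3 : v * (P.f s * P.f t) ^ (2 * ((k : ℤ) - (l : ℤ))) * v⁻¹ =
        (U k * U l) * (U l * U k)⁻¹ := by
      rw [hUmul, hUmul]
      have h4 : 2 * ((k : ℤ) - (l : ℤ)) = ((k : ℤ) - (l : ℤ)) - ((l : ℤ) - (k : ℤ)) := by ring
      rw [h4, zpow_sub]
      group
    rw [h3, h1, mul_inv_cancel]
  · push Not at hB
    obtain ⟨k, l, hk, hl, hne, hkl⟩ := hB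
    rcases hsup k l hk hl hne with h1 | ⟨x, hx, y, hy, hxy, hxy3, ⟨i, hi⟩, ⟨i', hi'⟩⟩
    · exact absurd h1.2 (hkl h1.1)
    have hM0 : M.M x y ≠ 0 := by omega
    have hpn : (P.f x * P.f y) ^ M.M x y = 1 := powM P x y hM0
    set g : ℕ := Nat.gcd m (M.M x y) with hg
    have hrr : v * (P.f s * P.f t) ^ ((k : ℤ) - (l : ℤ)) * v⁻¹ =
        (P.f x * P.f y) ^ (i - i') := by
      rw [← hUmul, hi, hi', tz_mul _ _ (P.sq x) (P.sq y)]
    have hrne : (P.f x * P.f y) ^ (i - i') ≠ 1 := by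
      rw [← hrr]
      intro h
      apply hne
      rw [hUeq, ← hdvd]
      exact h
    obtain ⟨ε, hε, hrot⟩ := zrot P x y s t v _ _ hxy hs hM0 hst hrr hrne
    -- elements of both cyclic groups
    have hboth : ∀ z z' : ℤ, v * (P.f s * P.f t) ^ z * v⁻¹ = (P.f x * P.f y) ^ z' →
        (m : ℤ) ∣ z * (g : ℤ) := by
      intro z z' h
      rw [← hdvd, zpow_mul, zpow_natCast, ← conj_pow, h]
      have e1 : ((P.f x * P.f y) ^ z') ^ M.M x y = 1 := by
        rw [← zpow_natCast, ← zpow_mul, mul_comm, zpow_mul, zpow_natCast, hpn, one_zpow]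
      have e2 : ((P.f x * P.f y) ^ z') ^ m = 1 := by
        rw [← h, conj_pow, ← zpow_natCast, ← zpow_mul, hdvd]
        exact ⟨z, by ring⟩
      exact pow_gcd_eq_one.2 ⟨e2, e1⟩
    have hg0 : 0 < g := Nat.gcd_pos_of_pos_left _ hmpos
    have hg1 : g ≠ 1 := by
      intro h
      have h2 := hboth _ _ hrr
      rw [h, Nat.cast_one, mul_one, ← hUeq] at h2
      exact hne h2
    obtain ⟨d, hd⟩ : ∃ d, m = d * g := by
      obtain ⟨d, hd⟩ := Nat.gcd_dvd_left m (M.M x y)
      exact ⟨d, by rw [mul_comm]; exact hd⟩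
    have hd0 : 0 < d := by
      rcases Nat.eq_zero_or_pos d with h | h
      · rw [h, zero_mul] at hd
        omega
      · exact h
    have hmg : m / g = d := by
      rw [hd]; exact Nat.mul_div_left d hg0
    have hmd : m / d = g := by
      conv_lhs => rw [hd]
      exact Nat.mul_div_right g hd0
    rw [hmg] at hrot
    set e : ℕ := M.M x y / g with he
    -- the elements in the dihedral group of x, y
    have hmemT : ∀ (j : ℕ) (z : ℤ), U j = tz (P.f x) (P.f y) z → U j ∈ T := by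
      intro j z hz
      refine ⟨x, hx, y, hy, hM0, (z % (M.M x y : ℤ)).toNat, ?_⟩
      rw [hz]
      exact tz_nat P x y hM0 z
    have hback : ∀ j : ℕ, (d : ℤ) ∣ (j : ℤ) - (k : ℤ) →
        ∃ z, U j = tz (P.f x) (P.f y) z := by
      intro j hj
      obtain ⟨z, hz⟩ := hj
      have h2 : v * (P.f s * P.f t) ^ ((j : ℤ) - (k : ℤ)) * v⁻¹ =
          (P.f x * P.f y) ^ (ε * (e : ℤ) * z) := by
        rw [hz, zpow_mul, zpow_natCast, ← conj_zpow, hrot, ← zpow_mul]
      rw [← hUmul, hi] at h2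
      refine ⟨ε * (e : ℤ) * z + i, ?_⟩
      rw [← rot_tz, ← h2, mul_assoc, tz_sq _ _ (P.sq x) (P.sq y), mul_one]
    have hforth : ∀ j : ℕ, U j ∈ T → ∃ z, U j = tz (P.f x) (P.f y) z := by
      intro j hj
      by_contra hcon
      have hjk : U j ≠ U k := fun h => hcon ⟨i, by rw [h, hi]⟩
      have hjl : U j ≠ U l := fun h => hcon ⟨i', by rw [h, hi']⟩
      have hcomm : ∀ q : ℕ, U q ∈ T → U j ≠ U q → (∃ z, U q = tz (P.f x) (P.f y) z) →
          (m : ℤ) ∣ 2 * ((j : ℤ) - (q : ℤ)) := by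
        intro q hq hjq _
        rcases hsup j q hj hq hjq with h1 | ⟨b, hb, c, hc, hbc, hbc3, ⟨z, hz⟩, ⟨z', hz'⟩⟩
        · rw [← hdvd]
          have h3 : v * (P.f s * P.f t) ^ (2 * ((j : ℤ) - (q : ℤ))) * v⁻¹ =
              (U j * U q) * (U q * U j)⁻¹ := by
            rw [hUmul, hUmul]
            have h4 : 2 * ((j : ℤ) - (q : ℤ)) =
              ((j : ℤ) - (q : ℤ)) - ((q : ℤ) - (j : ℤ)) := by ring
            rw [h4, zpow_sub]
            group
          rw [h3, h1.1, mul_inv_cancel]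
        · exfalso
          have h5 : v * (P.f s * P.f t) ^ ((j : ℤ) - (q : ℤ)) * v⁻¹ =
              (P.f b * P.f c) ^ (z - z') := by
            rw [← hUmul, hz, hz', tz_mul _ _ (P.sq b) (P.sq c)]
          have h6 : (P.f b * P.f c) ^ (z - z') ≠ 1 := by
            rw [← h5]
            intro h
            apply hjq
            rw [hUeq, ← hdvd]
            exact h
          have h7 := zplane P x y b c s t v _ _ _ _ hxy hbc hs hM0 (by omega) hst hrr hrne h5 h6
          rcases h7 with ⟨h8 | h8, h9 | h9⟩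
          · exact hbc (h8.trans h9.symm)
          · subst h8
            subst h9
            exact hcon ⟨z, hz⟩
          · subst h8
            subst h9
            exact hcon ⟨-z - 1, by rw [hz, tz_swap _ _ (P.sq c) (P.sq b)]⟩
          · exact hbc (h8.trans h9.symm)
      have c1 := hcomm k hk hjk ⟨i, hi⟩
      have c2 := hcomm l hl hjl ⟨i', hi'⟩
      rw [ne_eq, hUeq] at hjk hjl hne
      obtain ⟨b1, hb1⟩ := c1
      obtain ⟨b2, hb2⟩ := c2
      rcases Int.even_or_odd' b1 with ⟨r1, hr1 | hr1⟩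
      · apply hjk
        exact ⟨r1, by rw [hr1] at hb1; linarith⟩
      rcases Int.even_or_odd' b2 with ⟨r2, hr2 | hr2⟩
      · apply hjl
        exact ⟨r2, by rw [hr2] at hb2; linarith⟩
      apply hne
      refine ⟨r2 - r1, ?_⟩
      rw [hr1] at hb1
      rw [hr2] at hb2
      linarith
    refine pack U m T ν d hd0 ⟨g, hd⟩ k ?_ ?_
    · intro j
      constructor
      · intro hj
        obtain ⟨z, hz⟩ := hforth j hj
        have h2 : v * (P.f s * P.f t) ^ ((j : ℤ) - (k : ℤ)) * v⁻¹ =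
            (P.f x * P.f y) ^ (z - i) := by
          rw [← hUmul, hz, hi, tz_mul _ _ (P.sq x) (P.sq y)]
        have h3 := hboth _ _ h2
        have h4 : (m : ℤ) = (d : ℤ) * (g : ℤ) := by exact_mod_cast hd
        rw [h4] at h3
        exact Int.dvd_of_mul_dvd_mul_right (by exact_mod_cast hg0.ne') h3
      · intro hj
        obtain ⟨z, hz⟩ := hback j hj
        exact hmemT j z hz
    · intro j hj
      obtain ⟨z, hz⟩ := hforth j hj
      rw [hmd]
      have h2 : U (j + d) = tz (P.f x) (P.f y) (ε * (e : ℤ) + z) := by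
        have h3 : U (j + d) * U j = (P.f x * P.f y) ^ (ε * (e : ℤ)) := by
          rw [hUmul, ← hrot]
          congr 2
          rw [← zpow_natCast]
          congr 1
          push_cast
          ring
        rw [← rot_tz, ← h3, ← hz, mul_assoc, hUsq, mul_one]
      have hlet := letters' S0 P a ν hL x y hx hy hxy hM0 s t hs hst
      rw [h2, hz]
      rcases hε with h4 | h4
      · rw [h4, one_mul, add_comm]
        exact hlet z
      · have h5 := hlet (-1 * (e : ℤ) + z)
        have h6 : -1 * (e : ℤ) + z + (e : ℤ) = z := by ring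
        rw [h6] at h5
        rw [h4]
        exact h5.symm


end Art.H44
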