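import Pool.Agent.Helper44_Art.Fin1
import Pool.Agent.Helper44_Art.Ug
import Pool.Agent.Helper44_Art.Cl
import Pool.Agent.Helper44_Art.Lett2
import Pool.Agent.Helper44_Art.Win2
import Pool.Agent.Helper25_Art.Supp
import Pool.Agent.Helper4_Art.Gen
import Pool.Agent.Helper48_Art.Root
import Pool.Agent.Helper84_Art.Atom
import Pool.Agent.Helper84_Art.Plane

set_option autoImplicit false

namespace Art
namespace H44

theorem fin2P : Fin2Stmt :=
  Art.H25.fin2 Art.H4.gen Art.H48.ord (Art.H25.uniq Art.H48.root) (Art.H25.supp Art.H48.root)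
    Art.H84.rot Art.H84.plane

theorem vrwP : VrwStmt := Art.H15.vrw Art.H81.act Art.H51.ret

theorem vr2P : VR2Stmt' := vr2' fin2P lett' win' vrwP

theorem am2P : Am2Stmt' := am2' glueP vr2P

theorem ugP : UGStmt := ug am2P

end H44
end Art
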