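import Pool.Agent.Helper44_Art.Fin2
import Pool.Agent.Helper63_Art.Semi
import Pool.Agent.Helper50_Art.T234
import Pool.Agent.Helper50_Art.T244
import Pool.Agent.Helper18_Art.T233
import Pool.Agent.Helper18_Art.Fino
import Pool.Agent.Helper69_Art.T333
import Pool.Agent.Helper69_Art.Free

set_option autoImplicit false

namespace Art
namespace H44

theorem t233P : T233Stmt := Art.H18.t233 Art.H63.semi Art.H69.free dihP

theorem t234P : T234Stmt := Art.H50.t234 Art.H63.semi Art.H69.free dihP

theorem t333P : T333Stmt := Art.H69.t333 t234P

theorem t244P : T244Stmt := Art.H50.t244 Art.H63.semi Art.H69.free Art.H18.fino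

theorem clP : CLStmt := cl Art.H84.prod Art.H48.base1 dihP t233P t234P t333P t244P

/-- The final theorem (conditional on the larger complete parabolic subgroups). -/
theorem finalP {S : Type} [Fintype S] (M : CoxeterMatrix S) (h1 : LD M) (h2 : LG M)
    (h3 : CliqueH M) : RF (Gp M) := ugP M h1 h2 (clP M h3)

end H44
end Art
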