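import Pool.Agent.Helper44_Art.Api

set_option autoImplicit false
set_option linter.unusedSectionVars false
set_option linter.unusedSimpArgs false

/-!
# Wave 2: the reflection representation over a finite field
-/

namespace Art

/-- Data of the reflection representation: a common multiple `K` of the finite labels, a primitive
`2K`-th root of unity `z`, a symmetric matrix `c` with `c s s = -2`,
`c s t = z^(K/m) + z^(-K/m)` for a finite label `m`; the other entries are free. -/
structure Lin {S : Type} (M : CoxeterMatrix S) (k : Type) [Field k] where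
  K : ℕ
  Kpos : 0 < K
  dvd : ∀ s t, M.M s t ≠ 0 → M.M s t ∣ K
  z : k
  hz : IsPrimitiveRoot z (2 * K)
  c : S → S → k
  csymm : ∀ s t, c s t = c t s
  cdiag : ∀ s, c s s = -2
  cfin : ∀ s t, s ≠ t → M.M s t ≠ 0 → c s t = z ^ (K / M.M s t) + (z ^ (K / M.M s t))⁻¹

namespace Lin

variable {S : Type} [Fintype S] [DecidableEq S] {M : CoxeterMatrix S} {k : Type} [Field k]
  (L : Lin M k)

/-- The `2m`-th root of unity attached to a finite label `m`. -/
def zz (s t : S) : k := L.z ^ (L.K / M.M s t)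

/-- Basis vectors. -/
def e (s : S) : S → k := Pi.single s 1

/-- The linear form of the reflection `s`. -/
def lam (s : S) (u : S → k) : k := ∑ t, L.c s t * u t

/-- The symmetric bilinear form. -/
def B (u w : S → k) : k := -∑ s, u s * L.lam s w

/-- The reflection in `e s`. -/
def rf (s : S) (u : S → k) : S → k := u + L.lam s u • e s

theorem lam_add (s : S) (u w : S → k) : L.lam s (u + w) = L.lam s u + L.lam s w := by
  simp only [lam, Pi.add_apply, mul_add, Finset.sum_add_distrib]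

theorem lam_smul (s : S) (a : k) (u : S → k) : L.lam s (a • u) = a * L.lam s u := by
  simp only [lam, Pi.smul_apply, smul_eq_mul, Finset.mul_sum]
  exact Finset.sum_congr rfl (fun t _ => by ring)

theorem lam_e (s t : S) : L.lam s (e t) = L.c s t := by
  simp only [lam, e]
  rw [Finset.sum_eq_single t]
  · simp
  · intro b _ hb
    simp [Pi.single_eq_of_ne hb]
  · intro h
    exact absurd (Finset.mem_univ t) h

theorem B_add_left (u v w : S → k) : L.B (u + v) w = L.B u w + L.B v w := by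
  simp only [B, Pi.add_apply, add_mul, Finset.sum_add_distrib, neg_add]

theorem B_smul_left (a : k) (u w : S → k) : L.B (a • u) w = a * L.B u w := by
  simp only [B, Pi.smul_apply, smul_eq_mul, mul_neg, Finset.mul_sum]
  congr 1
  exact Finset.sum_congr rfl (fun t _ => by ring)

theorem B_add_right (u v w : S → k) : L.B u (v + w) = L.B u v + L.B u w := by
  simp only [B, lam_add, mul_add, Finset.sum_add_distrib, neg_add]

theorem B_smul_right (a : k) (u w : S → k) : L.B u (a • w) = a * L.B u w := by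
  simp only [B, lam_smul, mul_neg, Finset.mul_sum]
  congr 1
  exact Finset.sum_congr rfl (fun t _ => by ring)

theorem B_symm (u w : S → k) : L.B u w = L.B w u := by
  simp only [B, lam, Finset.mul_sum]
  rw [Finset.sum_comm]
  congr 1
  refine Finset.sum_congr rfl (fun s _ => Finset.sum_congr rfl (fun t _ => ?_))
  rw [L.csymm s t]; ring

theorem B_e_left (s : S) (w : S → k) : L.B (e s) w = -L.lam s w := by
  simp only [B, e]
  rw [Finset.sum_eq_single s]
  · simp
  · intro b _ hb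
    simp [Pi.single_eq_of_ne hb]
  · intro h
    exact absurd (Finset.mem_univ s) h

theorem B_e_right (s : S) (w : S → k) : L.B w (e s) = -L.lam s w := by
  rw [B_symm, B_e_left]

theorem B_e_e (s t : S) : L.B (e s) (e t) = -L.c s t := by
  rw [B_e_left, lam_e]

theorem rf_rf (s : S) (u : S → k) : L.rf s (L.rf s u) = u := by
  unfold rf
  rw [lam_add, lam_smul, lam_e, L.cdiag]
  ext t
  simp only [Pi.add_apply, Pi.smul_apply, smul_eq_mul]
  ring

theorem rf_add (s : S) (u w : S → k) : L.rf s (u + w) = L.rf s u + L.rf s w := by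
  unfold rf
  rw [lam_add]
  ext t
  simp only [Pi.add_apply, Pi.smul_apply, smul_eq_mul]
  ring

theorem rf_smul (s : S) (a : k) (u : S → k) : L.rf s (a • u) = a • L.rf s u := by
  unfold rf
  rw [lam_smul]
  ext t
  simp only [Pi.add_apply, Pi.smul_apply, smul_eq_mul]
  ring

theorem B_rf (s : S) (u w : S → k) : L.B (L.rf s u) (L.rf s w) = L.B u w := by
  unfold rf
  simp only [B_add_left, B_add_right, B_smul_left, B_smul_right, B_e_left, B_e_right, lam_e,
    lam_add, lam_smul, L.cdiag]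
  ring

/-- The reflection as a linear equivalence. -/
def rl (s : S) : (S → k) ≃ₗ[k] (S → k) where
  toFun := L.rf s
  map_add' := L.rf_add s
  map_smul' := L.rf_smul s
  invFun := L.rf s
  left_inv := L.rf_rf s
  right_inv := L.rf_rf s

/-- The group of linear isometries. -/
def iso : Subgroup ((S → k) ≃ₗ[k] (S → k)) where
  carrier := {φ | ∀ u w, L.B (φ u) (φ w) = L.B u w}
  mul_mem' := by
    intro a b ha hb u w
    show L.B (a (b u)) (a (b w)) = _
    rw [ha, hb]
  one_mem' := fun u w => rfl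
  inv_mem' := by
    intro a ha u w
    have h := ha (a⁻¹ u) (a⁻¹ w)
    have h1 : a (a⁻¹ u) = u := a.apply_symm_apply u
    have h2 : a (a⁻¹ w) = w := a.apply_symm_apply w
    rw [h1, h2] at h
    exact h.symm

/-- The reflections as isometries. -/
def f (s : S) : L.iso := ⟨L.rl s, L.B_rf s⟩

theorem iso_B (v : L.iso) (u w : S → k) : L.B (v.1 u) (v.1 w) = L.B u w := v.2 u w

theorem f_apply (s : S) (u : S → k) : (L.f s).1 u = u + L.lam s u • e s := rfl

theorem f_apply' (s : S) (u : S → k) : (L.f s).1 u = u - L.B u (e s) • e s := by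
  rw [f_apply, B_e_right]; ext t; simp

theorem mul_apply (v w : L.iso) (u : S → k) : (v * w).1 u = v.1 (w.1 u) := rfl

theorem one_apply (u : S → k) : (1 : L.iso).1 u = u := rfl

theorem ext_iso (v w : L.iso) (h : ∀ u, v.1 u = w.1 u) : v = w := by
  apply Subtype.ext
  exact LinearEquiv.ext h

theorem inv_apply_self (v : L.iso) (u : S → k) : (v⁻¹).1 (v.1 u) = u := by
  have : (v⁻¹ * v) = 1 := inv_mul_cancel v
  have h := congrArg (fun w : L.iso => w.1 u) this
  exact h

theorem apply_inv_self (v : L.iso) (u : S → k) : v.1 ((v⁻¹).1 u) = u := by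
  have : (v * v⁻¹) = 1 := mul_inv_cancel v
  have h := congrArg (fun w : L.iso => w.1 u) this
  exact h

theorem f_sq (s : S) : L.f s * L.f s = 1 :=
  L.ext_iso _ _ (fun u => L.rf_rf s u)

theorem f_e_self (s : S) : (L.f s).1 (e s) = -e s := by
  rw [f_apply, lam_e, L.cdiag]; ext t; simp; ring

theorem f_e (s t : S) : (L.f s).1 (e t) = e t + L.c s t • e s := by
  rw [f_apply, lam_e]

/-- `2 ≠ 0`. -/
theorem two_ne (L : Lin M k) : (2 : k) ≠ 0 := by
  intro h
  -- the order of z is even, so z^K = -1 ≠ 1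
  have h1 : L.z ^ L.K ≠ 1 := by
    intro h2
    have := (L.hz.pow_eq_one_iff_dvd L.K).1 h2
    have := Nat.le_of_dvd L.Kpos this
    have := L.Kpos
    omega
  have h2 : (L.z ^ L.K) ^ 2 = 1 := by rw [← pow_mul, mul_comm]; exact L.hz.pow_eq_one
  have h3 : (L.z ^ L.K - 1) ^ 2 = 0 := by
    have : (L.z ^ L.K - 1) ^ 2 = (L.z ^ L.K) ^ 2 + 1 - 2 * L.z ^ L.K := by ring
    rw [this, h2, h]
    have : (1 : k) + 1 = 2 := by norm_num
    rw [this, h]; ring
  have h4 : L.z ^ L.K - 1 = 0 := by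
    by_contra h5
    exact (pow_ne_zero 2 h5) h3
  exact h1 (sub_eq_zero.1 h4)

theorem m_ge_two (s t : S) (h : s ≠ t) (hm : M.M s t ≠ 0) : 2 ≤ M.M s t := by
  have := M.off_diagonal s t h
  omega

/-- `zz s t` is a primitive `2m`-th root of unity. -/
theorem zz_prim (s t : S) (hm : M.M s t ≠ 0) : IsPrimitiveRoot (L.zz s t) (2 * M.M s t) := by
  obtain ⟨d, hd⟩ := L.dvd s t hm
  have hm' : 0 < M.M s t := Nat.pos_of_ne_zero hm
  have hK := L.Kpos
  have hd0 : 0 < d := by
    rcases Nat.eq_zero_or_pos d with h | h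
    · rw [h] at hd; omega
    · exact h
  have h1 : L.K / M.M s t = d := by rw [hd]; exact Nat.mul_div_cancel_left d hm'
  unfold zz
  rw [h1]
  have h2 : 2 * L.K = d * (2 * M.M s t) := by rw [hd]; ring
  exact L.hz.pow (by omega) h2

theorem zz_ne_zero (s t : S) (hm : M.M s t ≠ 0) : L.zz s t ≠ 0 :=
  (L.zz_prim s t hm).ne_zero (by omega)

theorem c_eq (s t : S) (h : s ≠ t) (hm : M.M s t ≠ 0) : L.c s t = L.zz s t + (L.zz s t)⁻¹ :=
  L.cfin s t h hm

/-- Eigenvectors of the rotation `f s * f t`. -/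
def Ep (s t : S) : S → k := L.zz s t • e s + e t
def Em (s t : S) : S → k := (L.zz s t)⁻¹ • e s + e t

theorem f_Ep (s t : S) (h : s ≠ t) (hm : M.M s t ≠ 0) : (L.f s).1 (L.Ep s t) = L.Em s t := by
  have hz := L.zz_ne_zero s t hm
  unfold Ep Em
  rw [map_add, map_smul, f_e_self, f_e, L.c_eq s t h hm]
  ext r
  simp only [Pi.add_apply, Pi.smul_apply, smul_eq_mul, Pi.neg_apply]
  ring

theorem f_Em (s t : S) (h : s ≠ t) (hm : M.M s t ≠ 0) : (L.f s).1 (L.Em s t) = L.Ep s t := by
  rw [← L.f_Ep s t h hm]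
  exact L.rf_rf s _

theorem f_t_Ep (s t : S) (h : s ≠ t) (hm : M.M s t ≠ 0) :
    (L.f t).1 (L.Ep s t) = (L.zz s t) ^ 2 • L.Em s t := by
  have hz := L.zz_ne_zero s t hm
  unfold Ep Em
  rw [map_add, map_smul, f_e_self, f_e, L.csymm t s, L.c_eq s t h hm]
  ext r
  simp only [Pi.add_apply, Pi.smul_apply, smul_eq_mul, Pi.neg_apply]
  field_simp
  ring

theorem f_t_Em (s t : S) (h : s ≠ t) (hm : M.M s t ≠ 0) :
    (L.f t).1 (L.Em s t) = ((L.zz s t) ^ 2)⁻¹ • L.Ep s t := by
  have hz := L.zz_ne_zero s t hm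
  unfold Ep Em
  rw [map_add, map_smul, f_e_self, f_e, L.csymm t s, L.c_eq s t h hm]
  ext r
  simp only [Pi.add_apply, Pi.smul_apply, smul_eq_mul, Pi.neg_apply]
  field_simp
  ring

/-- The rotation `f s * f t` on its eigenvectors. -/
theorem rot_Ep (s t : S) (h : s ≠ t) (hm : M.M s t ≠ 0) :
    (L.f s * L.f t).1 (L.Ep s t) = (L.zz s t) ^ 2 • L.Ep s t := by
  rw [mul_apply, f_t_Ep L s t h hm, map_smul, f_Em L s t h hm]

theorem rot_Em (s t : S) (h : s ≠ t) (hm : M.M s t ≠ 0) :
    (L.f s * L.f t).1 (L.Em s t) = ((L.zz s t) ^ 2)⁻¹ • L.Em s t := by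
  rw [mul_apply, f_t_Em L s t h hm, map_smul, f_Ep L s t h hm]

theorem rot_pow_Ep (s t : S) (h : s ≠ t) (hm : M.M s t ≠ 0) (n : ℕ) :
    ((L.f s * L.f t) ^ n).1 (L.Ep s t) = ((L.zz s t) ^ 2) ^ n • L.Ep s t := by
  induction n with
  | zero => simp [one_apply]
  | succ n ih =>
    rw [pow_succ', mul_apply, ih, map_smul, rot_Ep L s t h hm, smul_smul, ← pow_succ]

theorem rot_pow_Em (s t : S) (h : s ≠ t) (hm : M.M s t ≠ 0) (n : ℕ) :
    ((L.f s * L.f t) ^ n).1 (L.Em s t) = (((L.zz s t) ^ 2)⁻¹) ^ n • L.Em s t := by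
  induction n with
  | zero => simp [one_apply]
  | succ n ih =>
    rw [pow_succ', mul_apply, ih, map_smul, rot_Em L s t h hm, smul_smul, ← pow_succ]

theorem B_Ep_Ep (s t : S) (h : s ≠ t) (hm : M.M s t ≠ 0) : L.B (L.Ep s t) (L.Ep s t) = 0 := by
  have hz := L.zz_ne_zero s t hm
  unfold Ep
  simp only [B_add_left, B_add_right, B_smul_left, B_smul_right, B_e_e, L.cdiag, L.csymm t s,
    L.c_eq s t h hm]
  field_simp
  ring

theorem B_Em_Em (s t : S) (h : s ≠ t) (hm : M.M s t ≠ 0) : L.B (L.Em s t) (L.Em s t) = 0 := by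
  have hz := L.zz_ne_zero s t hm
  unfold Em
  simp only [B_add_left, B_add_right, B_smul_left, B_smul_right, B_e_e, L.cdiag, L.csymm t s,
    L.c_eq s t h hm]
  field_simp
  ring

theorem B_Ep_Em (s t : S) (h : s ≠ t) (hm : M.M s t ≠ 0) :
    L.B (L.Ep s t) (L.Em s t) = -(L.zz s t - (L.zz s t)⁻¹) ^ 2 := by
  have hz := L.zz_ne_zero s t hm
  unfold Em Ep
  simp only [B_add_left, B_add_right, B_smul_left, B_smul_right, B_e_e, L.cdiag, L.csymm t s,
    L.c_eq s t h hm]
  field_simp
  ring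

theorem zsub_ne (s t : S) (h : s ≠ t) (hm : M.M s t ≠ 0) :
    L.zz s t - (L.zz s t)⁻¹ ≠ 0 := by
  have hz := L.zz_ne_zero s t hm
  intro h0
  have h1 : (L.zz s t) ^ 2 = 1 := by
    have : L.zz s t = (L.zz s t)⁻¹ := sub_eq_zero.1 h0
    calc (L.zz s t) ^ 2 = L.zz s t * L.zz s t := by ring
      _ = L.zz s t * (L.zz s t)⁻¹ := by rw [← this]
      _ = 1 := mul_inv_cancel₀ hz
  have h2 := ((L.zz_prim s t hm).pow_eq_one_iff_dvd 2).1 h1
  have h3 := Nat.le_of_dvd (by norm_num) h2
  have h4 := m_ge_two (M := M) s t h hm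
  omega

theorem B_Ep_Em_ne (s t : S) (h : s ≠ t) (hm : M.M s t ≠ 0) :
    L.B (L.Ep s t) (L.Em s t) ≠ 0 := by
  rw [B_Ep_Em L s t h hm]
  exact neg_ne_zero.2 (pow_ne_zero 2 (L.zsub_ne s t h hm))

theorem Ep_ne_zero (s t : S) (h : s ≠ t) (hm : M.M s t ≠ 0) : L.Ep s t ≠ 0 := by
  intro h0
  apply L.B_Ep_Em_ne s t h hm
  rw [h0]
  have := L.B_smul_left 0 (0 : S → k) (L.Em s t)
  simpa using this

theorem Em_ne_zero (s t : S) (h : s ≠ t) (hm : M.M s t ≠ 0) : L.Em s t ≠ 0 := by
  intro h0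
  apply L.B_Ep_Em_ne s t h hm
  rw [h0]
  have := L.B_smul_right 0 (L.Ep s t) (0 : S → k)
  simpa using this

/-- Every vector is a combination of `Ep`, `Em` and a vector orthogonal to `e s`, `e t`. -/
theorem decomp (s t : S) (h : s ≠ t) (hm : M.M s t ≠ 0) (u : S → k) :
    ∃ (a b : k) (w : S → k), u = a • L.Ep s t + b • L.Em s t + w ∧
      L.B w (e s) = 0 ∧ L.B w (e t) = 0 := by
  have hB := L.B_Ep_Em_ne s t h hm
  have hz := L.zz_ne_zero s t hm
  refine ⟨L.B u (L.Em s t) / L.B (L.Ep s t) (L.Em s t),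
    L.B u (L.Ep s t) / L.B (L.Ep s t) (L.Em s t),
    u - (L.B u (L.Em s t) / L.B (L.Ep s t) (L.Em s t)) • L.Ep s t -
      (L.B u (L.Ep s t) / L.B (L.Ep s t) (L.Em s t)) • L.Em s t, by abel, ?_, ?_⟩
  all_goals
    set P := L.B u (L.Em s t) / L.B (L.Ep s t) (L.Em s t) with hP
    set Q := L.B u (L.Ep s t) / L.B (L.Ep s t) (L.Em s t) with hQ
    set w := u - P • L.Ep s t - Q • L.Em s t with hw
    have hwp : L.B w (L.Ep s t) = 0 := by
      have : w = u + ((-P) • L.Ep s t + (-Q) • L.Em s t) := by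
        rw [hw]; ext r; simp only [Pi.add_apply, Pi.sub_apply, Pi.smul_apply, smul_eq_mul]; ring
      rw [this, B_add_left, B_add_left, B_smul_left, B_smul_left, B_Ep_Ep L s t h hm,
        L.B_symm (L.Em s t) (L.Ep s t), hQ]
      field_simp
      ring
    have hwm : L.B w (L.Em s t) = 0 := by
      have : w = u + ((-P) • L.Ep s t + (-Q) • L.Em s t) := by
        rw [hw]; ext r; simp only [Pi.add_apply, Pi.sub_apply, Pi.smul_apply, smul_eq_mul]; ring
      rw [this, B_add_left, B_add_left, B_smul_left, B_smul_left, B_Em_Em L s t h hm, hP]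
      field_simp
      ring
    have hs : e (k := k) s = (L.zz s t - (L.zz s t)⁻¹)⁻¹ • L.Ep s t +
        (-(L.zz s t - (L.zz s t)⁻¹)⁻¹) • L.Em s t := by
      have hne := L.zsub_ne s t h hm
      unfold Ep Em
      ext r
      simp only [Pi.add_apply, Pi.smul_apply, smul_eq_mul]
      have : (L.zz s t - (L.zz s t)⁻¹)⁻¹ * (L.zz s t * e s r + e t r) +
          -(L.zz s t - (L.zz s t)⁻¹)⁻¹ * ((L.zz s t)⁻¹ * e s r + e t r) =
          ((L.zz s t - (L.zz s t)⁻¹)⁻¹ * (L.zz s t - (L.zz s t)⁻¹)) * e s r := by ring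
      rw [this, inv_mul_cancel₀ hne, one_mul]
    have hws : L.B w (e s) = 0 := by
      rw [hs, B_add_right, B_smul_right, B_smul_right, hwp, hwm]; ring
    first
    | exact hws
    | (have ht : e (k := k) t = L.Ep s t + (-(L.zz s t)) • e s := by
         unfold Ep; ext r; simp only [Pi.add_apply, Pi.smul_apply, smul_eq_mul]; ring
       rw [ht, B_add_right, B_smul_right, hwp, hws]; ring)

theorem f_fix (s : S) (w : S → k) (h : L.B w (e s) = 0) : (L.f s).1 w = w := by
  rw [f_apply', h, zero_smul, sub_zero]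

theorem rot_fix (s t : S) (w : S → k) (h : L.B w (e s) = 0) (h' : L.B w (e t) = 0) (n : ℕ) :
    ((L.f s * L.f t) ^ n).1 w = w := by
  induction n with
  | zero => simp [one_apply]
  | succ n ih => rw [pow_succ', mul_apply, ih, mul_apply, L.f_fix t w h', L.f_fix s w h]

/-- Two isometries agree if they agree on `Ep`, `Em` and on the orthogonal complement. -/
theorem ext_plane (s t : S) (h : s ≠ t) (hm : M.M s t ≠ 0) (v w : L.iso)
    (h1 : v.1 (L.Ep s t) = w.1 (L.Ep s t)) (h2 : v.1 (L.Em s t) = w.1 (L.Em s t))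
    (h3 : ∀ u, L.B u (e s) = 0 → L.B u (e t) = 0 → v.1 u = w.1 u) : v = w := by
  apply L.ext_iso
  intro u
  obtain ⟨a, b, r, hu, hr1, hr2⟩ := L.decomp s t h hm u
  rw [hu, map_add, map_add, map_smul, map_smul, map_add, map_add, map_smul, map_smul, h1, h2,
    h3 r hr1 hr2]

/-- `(f s * f t)^m = 1`. -/
theorem f_pow (s t : S) (hm : M.M s t ≠ 0) : (L.f s * L.f t) ^ M.M s t = 1 := by
  by_cases h : s = t
  · subst h
    rw [L.f_sq, one_pow]
  · apply L.ext_plane s t h hm
    · rw [rot_pow_Ep L s t h hm, one_apply, ← pow_mul, (L.zz_prim s t hm).pow_eq_one, one_smul]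
    · rw [rot_pow_Em L s t h hm, one_apply, inv_pow, ← pow_mul, (L.zz_prim s t hm).pow_eq_one,
        inv_one, one_smul]
    · intro u h1 h2
      rw [rot_fix L s t u h1 h2, one_apply]

instance [Finite k] : Finite L.iso := by
  have : Finite ((S → k) ≃ₗ[k] (S → k)) :=
    Finite.of_injective (fun φ : (S → k) ≃ₗ[k] (S → k) => (fun u => φ u))
      (fun a b h => LinearEquiv.ext (fun u => congrFun h u))
  infer_instance

end Lin

end Art
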