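import Mathlib

set_option autoImplicit false

/-!
# Residual finiteness of Artin groups: definitions and module statements

Squad file for MP_61f49c_al (coordinator helper44).  A label `0` stands for infinity.
-/

namespace Art

/-- The alternating product `a b a b ...` with `m` letters. -/
def alt {G : Type} [Monoid G] (m : ℕ) (a b : G) : G :=
  ((List.range m).map (fun k => if Even k then a else b)).prod

/-- The braid relators of an Artin group. -/
def rel {S : Type} (M : CoxeterMatrix S) : Set (FreeGroup S) :=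
  {r : FreeGroup S | ∃ i j : S, M.M i j ≠ 0 ∧
      r = ((List.range (M.M i j)).map
              (fun k => if Even k then FreeGroup.of i else FreeGroup.of j)).prod *
          (((List.range (M.M i j)).map
              (fun k => if Even k then FreeGroup.of j else FreeGroup.of i)).prod)⁻¹}

/-- The Artin group of a Coxeter matrix. -/
abbrev Gp {S : Type} (M : CoxeterMatrix S) : Type := PresentedGroup (rel M)

/-- The standard generator. -/
def gen {S : Type} (M : CoxeterMatrix S) (s : S) : Gp M := PresentedGroup.of s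

/-- The restriction of a Coxeter matrix to a set of generators. -/
def res {S : Type} (M : CoxeterMatrix S) (T : Set S) : CoxeterMatrix T where
  M := fun x y => M.M x.1 y.1
  isSymm := by
    ext x y
    exact M.symmetric y.1 x.1
  diagonal x := M.diagonal x.1
  off_diagonal x y h := M.off_diagonal x.1 y.1 (fun h' => h (Subtype.ext h'))

/-- Residual finiteness (Mathlib class). -/
abbrev RF (G : Type) [Group G] : Prop := Group.ResiduallyFinite G

/-- `ι : C →* G` is a virtual retract: some finite index subgroup of `G` contains the image of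
`ι` and retracts onto `C`.  (This implies that `ι` is injective.) -/
def VR {C G : Type} [Group C] [Group G] (ι : C →* G) : Prop :=
  ∃ (H : Subgroup G) (hι : ∀ c, ι c ∈ H) (ρ : H →* C), H.FiniteIndex ∧
    ∀ c, ρ ⟨ι c, hι c⟩ = c

/-! ## Basic API (module API) -/

/-- API: universal property: a function on generators satisfying the braid relations extends. -/
def LiftStmt : Prop :=
  ∀ {S : Type} (M : CoxeterMatrix S) {G : Type} [Group G] (f : S → G),
    (∀ s t : S, M.M s t ≠ 0 → alt (M.M s t) (f s) (f t) = alt (M.M s t) (f t) (f s)) →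
    ∃ Φ : Gp M →* G, ∀ s, Φ (gen M s) = f s

/-- API: the braid relations hold in the Artin group. -/
def RelStmt : Prop :=
  ∀ {S : Type} (M : CoxeterMatrix S) (s t : S), M.M s t ≠ 0 →
    alt (M.M s t) (gen M s) (gen M t) = alt (M.M s t) (gen M t) (gen M s)

/-- API: two homomorphisms which agree on generators are equal. -/
def ExtStmt : Prop :=
  ∀ {S : Type} (M : CoxeterMatrix S) {G : Type} [Group G] (Φ Ψ : Gp M →* G),
    (∀ s, Φ (gen M s) = Ψ (gen M s)) → Φ = Ψ

/-- API: existence of the homomorphisms between parabolic subgroups induced by inclusion. -/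
def IncStmt : Prop :=
  ∀ {S : Type} (M : CoxeterMatrix S) (T : Set S),
    ∃ Φ : Gp (res M T) →* Gp M, ∀ x : T, Φ (gen (res M T) x) = gen M x.1

/-! ## Amalgams (modules AMF, PRIN, RETR, GLUE) -/

/-- AMF: an amalgamated product of finitely many finite groups is residually finite. -/
def AmfStmt : Prop :=
  ∀ {ι : Type} [Finite ι] [Nonempty ι] {G : ι → Type} {H : Type} [∀ i, Group (G i)] [Group H]
    [∀ i, Finite (G i)] (φ : ∀ i, H →* G i), (∀ i, Function.Injective (φ i)) →
    RF (Monoid.PushoutI φ)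

/-- PRIN: the amalgam principle. -/
def PrinStmt : Prop :=
  ∀ {ι : Type} [Finite ι] [Nonempty ι] {G : ι → Type} {H : Type} [∀ i, Group (G i)] [Group H]
    (φ : ∀ i, H →* G i), (∀ i, Function.Injective (φ i)) →
    (∀ i, RF (G i)) →
    (∀ (i : ι) (g : G i), g ∉ (φ i).range →
      ∃ N : Subgroup (G i), N.Normal ∧ N.FiniteIndex ∧ ∀ h : H, g * (φ i h)⁻¹ ∉ N) →
    (∀ L : ∀ i, Subgroup (G i), (∀ i, (L i).Normal ∧ (L i).FiniteIndex) →
      ∃ N : ∀ i, Subgroup (G i), (∀ i, (N i).Normal ∧ (N i).FiniteIndex ∧ N i ≤ L i) ∧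
        ∀ i j, (N i).comap (φ i) = (N j).comap (φ j)) →
    RF (Monoid.PushoutI φ)

/-- RETR (1): a virtual retract of a residually finite group is closed. -/
def ClosedStmt : Prop :=
  ∀ {C G : Type} [Group C] [Group G] (ι : C →* G), VR ι → RF G →
    ∀ g : G, g ∉ ι.range →
      ∃ N : Subgroup G, N.Normal ∧ N.FiniteIndex ∧ ∀ c : C, g * (ι c)⁻¹ ∉ N

/-- RETR (2): finite index subgroups of a virtual retract are induced. -/
def FullStmt : Prop :=
  ∀ {C G : Type} [Group C] [Group G] (ι : C →* G), VR ι → ∀ K : Subgroup C, K.FiniteIndex →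
    ∃ N : Subgroup G, N.Normal ∧ N.FiniteIndex ∧ N.comap ι ≤ K

/-- RETR (3): a virtual retract stays one in every intermediate group. -/
def MidStmt : Prop :=
  ∀ {C B G : Type} [Group C] [Group B] [Group G] (ι : C →* B) (κ : B →* G), VR (κ.comp ι) → VR ι

/-- GLUE: an Artin group split along a virtual retract is residually finite if the two pieces
are. -/
def GlueStmt : Prop :=
  ∀ {S : Type} (M : CoxeterMatrix S) (S1 S2 : Set S), S1 ∪ S2 = Set.univ →
    (∀ x ∈ S1, x ∉ S2 → ∀ y ∈ S2, y ∉ S1 → M.M x y = 0) →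
    (∀ Φ : Gp (res M (S1 ∩ S2)) →* Gp M,
      (∀ x, Φ (gen (res M (S1 ∩ S2)) x) = gen M x.1) → VR Φ) →
    RF (Gp (res M S1)) → RF (Gp (res M S2)) → RF (Gp M)

/-! ## The finite reflection group (module REFL) -/

/-- A finite quotient of the Coxeter group, as used in Theorem 1. -/
structure Fin1 {S : Type} (M : CoxeterMatrix S) where
  F : Type
  [grp : Group F]
  [fin : Finite F]
  f : S → F
  K : ℕ
  sq : ∀ s, f s * f s = 1
  pow : ∀ s t, M.M s t ≠ 0 → (f s * f t) ^ M.M s t = 1
  inj : ∀ s t, f s = f t → s = t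
  dvd : ∀ s t, M.M s t ≠ 0 → M.M s t ∣ K
  inf : ∀ s t, M.M s t = 0 → (f s * f t) ^ K ≠ 1

attribute [instance] Fin1.grp Fin1.fin

/-- REFL: existence of the finite quotient (reduction mod `p` of the reflection
representation). -/
def ReflStmt : Prop :=
  ∀ {S : Type} [Fintype S] (M : CoxeterMatrix S), Nonempty (Fin1 M)

/-! ## The action (modules ACT, VR1) -/

/-- ACT: if a family `ε` of permutations satisfies the reversal relation along each dihedral
residue, the Artin group acts on `E × F`. -/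
def ActStmt : Prop :=
  ∀ {S : Type} (M : CoxeterMatrix S) {F E : Type} [Group F] (f : S → F)
    (ε : F → Equiv.Perm E),
    (∀ s, f s * f s = 1) →
    (∀ s t, M.M s t ≠ 0 → (f s * f t) ^ M.M s t = 1) →
    (∀ (c : F) (s t : S), M.M s t ≠ 0 →
      ((List.range (M.M s t)).map (fun k => ε (c⁻¹ * ((f s * f t) ^ k * f s) * c))).prod =
      ((List.range (M.M s t)).map (fun k => ε (c⁻¹ * ((f s * f t) ^ k * f s) * c))).reverse.prod) →
    ∃ Φ : Gp M →* Equiv.Perm (E × F), ∀ (s : S) (e : E) (c : F),
      Φ (gen M s) (e, c) = (ε (c⁻¹ * f s * c) e, f s * c)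

/-- RET: from an action with values in a group `A` on which everything is equivariant to a
virtual retraction.  `T` is the set of blocked reflections, `ν` their letters. -/
def RetStmt : Prop :=
  ∀ {S : Type} (M : CoxeterMatrix S) {F A : Type} [Group F] [Finite F] [Group A] (f : S → F)
    (T : Set F) (ν : F → A) (Φ : Gp M →* Equiv.Perm ((F × A) × F)),
    (∀ s, f s * f s = 1) →
    (∀ (s : S) (g : F) (a : A) (c : F), g * (c⁻¹ * f s * c) * g⁻¹ ∈ T →
      Φ (gen M s) ((g, a), c) =
        ((g * (c⁻¹ * f s * c), ν (g * (c⁻¹ * f s * c) * g⁻¹) * a), f s * c)) →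
    (∀ (s : S) (g : F) (a : A) (c : F), g * (c⁻¹ * f s * c) * g⁻¹ ∉ T →
      Φ (gen M s) ((g, a), c) = ((g, a), f s * c)) →
    ∀ (ι : A →* Gp M) (X : Set S) (gA : X → A), Subgroup.closure (Set.range gA) = ⊤ →
      (∀ x : X, ι (gA x) = gen M x.1) → (∀ x : X, f x.1 ∈ T) → (∀ x : X, ν (f x.1) = gA x) →
      VR ι

/-- VR1 (Theorem 1): a right-angled standard parabolic subgroup is a virtual retract. -/
def VR1Stmt : Prop :=
  ∀ {S : Type} [Fintype S] (M : CoxeterMatrix S) (S0 : Set S),
    (∀ x ∈ S0, ∀ y ∈ S0, x ≠ y → M.M x y = 0 ∨ M.M x y = 2) →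
    ∀ Φ : Gp (res M S0) →* Gp M, (∀ x, Φ (gen (res M S0) x) = gen M x.1) → VR Φ

/-! ## Base cases and induction (modules BASE1, DIH, IND) -/

/-- BASE1: at most one generator. -/
def Base1Stmt : Prop :=
  ∀ {S : Type} (M : CoxeterMatrix S), Subsingleton S → RF (Gp M)

/-- DIH: two generators with a finite label. -/
def DihStmt : Prop :=
  ∀ {S : Type} (M : CoxeterMatrix S) (a b : S), a ≠ b → (∀ x, x = a ∨ x = b) → M.M a b ≠ 0 →
    RF (Gp M)

/-- AM1 (amalgam theorem, right-angled version). -/
def Am1Stmt : Prop :=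
  ∀ {S : Type} [Fintype S] (M : CoxeterMatrix S) (S1 S2 : Set S), S1 ∪ S2 = Set.univ →
    (∀ x ∈ S1, x ∉ S2 → ∀ y ∈ S2, y ∉ S1 → M.M x y = 0) →
    (∀ x ∈ S1 ∩ S2, ∀ y ∈ S1 ∩ S2, x ≠ y → M.M x y = 0 ∨ M.M x y = 2) →
    RF (Gp (res M S1)) → RF (Gp (res M S2)) → RF (Gp M)

/-- IND (Theorem 2): all triangle-free Artin groups are residually finite. -/
def TriFreeStmt : Prop :=
  ∀ {S : Type} [Fintype S] (M : CoxeterMatrix S),
    (∀ x y z : S, x ≠ y → y ≠ z → x ≠ z → M.M x y = 0 ∨ M.M y z = 0 ∨ M.M x z = 0) →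
    RF (Gp M)

end Art
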