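import Pool.Agent.Helper44_Art.Lin

set_option autoImplicit false

/-!
# Wave 2: statements (separators of local dihedral type)
-/

namespace Art

/-- The reflection `(f x f y)^i f x` of the dihedral group of `x`, `y`. -/
def ref {S F : Type} [Group F] (f : S → F) (x y : S) (i : ℕ) : F := (f x * f y) ^ i * f x

/-- The (minimal) support of the reflection `ref f x y i`: `{x}`, `{y}` or `{x, y}`. -/
def InSupp {S F : Type} [Group F] (f : S → F) (x y : S) (i : ℕ) (a : S) : Prop :=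
  (a = x ∨ a = y) ∧ (ref f x y i = f a ∨ (ref f x y i ≠ f x ∧ ref f x y i ≠ f y))

/-- A generic finite quotient of the Coxeter group. -/
structure Fin2 {S : Type} (M : CoxeterMatrix S) where
  F : Type
  [grp : Group F]
  [fin : Finite F]
  f : S → F
  K : ℕ
  sq : ∀ s, f s * f s = 1
  inj : ∀ s t, f s = f t → s = t
  ord : ∀ s t, s ≠ t → M.M s t ≠ 0 → orderOf (f s * f t) = M.M s t
  dvd : ∀ s t, M.M s t ≠ 0 → M.M s t ∣ K
  uniq : ∀ (x y z w : S) (i j : ℕ), M.M x y ≠ 0 → M.M z w ≠ 0 → ref f x y i = ref f z w j →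
    ∀ a, InSupp f x y i a ↔ InSupp f z w j a
  supp : ∀ (x y z w : S) (i j : ℕ), M.M x y ≠ 0 → M.M z w ≠ 0 →
    (ref f x y i * ref f z w j) ^ K = 1 →
    ∀ a b, InSupp f x y i a → InSupp f z w j b → M.M a b ≠ 0
  rot : ∀ (x y s t : S) (v : F) (n n' : ℕ), x ≠ y → s ≠ t → M.M x y ≠ 0 → M.M s t ≠ 0 →
    v * (f s * f t) ^ n * v⁻¹ = (f x * f y) ^ n' → (f x * f y) ^ n' ≠ 1 →
    v * (f s * f t) ^ (M.M s t / Nat.gcd (M.M s t) (M.M x y)) * v⁻¹ =
        (f x * f y) ^ (M.M x y / Nat.gcd (M.M s t) (M.M x y)) ∨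
      v * (f s * f t) ^ (M.M s t / Nat.gcd (M.M s t) (M.M x y)) * v⁻¹ =
        ((f x * f y) ^ (M.M x y / Nat.gcd (M.M s t) (M.M x y)))⁻¹
  plane : ∀ (x y a b s t : S) (v : F) (n n' l l' : ℕ), x ≠ y → a ≠ b → s ≠ t →
    M.M x y ≠ 0 → M.M a b ≠ 0 → M.M s t ≠ 0 →
    v * (f s * f t) ^ n * v⁻¹ = (f x * f y) ^ n' → (f x * f y) ^ n' ≠ 1 →
    v * (f s * f t) ^ l * v⁻¹ = (f a * f b) ^ l' → (f a * f b) ^ l' ≠ 1 →
    (a = x ∨ a = y) ∧ (b = x ∨ b = y)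

attribute [instance] Fin2.grp Fin2.fin

/-! ## Linear algebra modules -/

namespace Lin

variable {S : Type} [Fintype S] [DecidableEq S] {M : CoxeterMatrix S} {k : Type} [Field k]

/-- The root of the reflection `ref L.f x y i`. -/
def root (L : Lin M k) (x y : S) (i : ℕ) : S → k :=
  if x = y then e x else
    (((L.zz x y) ^ (i + 1) - ((L.zz x y)⁻¹) ^ (i + 1)) / (L.zz x y - (L.zz x y)⁻¹)) • e x +
    (((L.zz x y) ^ i - ((L.zz x y)⁻¹) ^ i) / (L.zz x y - (L.zz x y)⁻¹)) • e y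

/-- Genericity of the free entries. -/
def Gen (L : Lin M k) : Prop :=
  ∀ (x y z w : S) (i j : ℕ), M.M x y ≠ 0 → M.M z w ≠ 0 →
    (∃ a b, L.root x y i a ≠ 0 ∧ L.root z w j b ≠ 0 ∧ M.M a b = 0) →
    ∀ q : k, q ^ L.K = 1 → (L.B (L.root x y i) (L.root z w j)) ^ 2 ≠ 2 + q + q⁻¹

end Lin

/-- ORD. -/
def OrdStmt : Prop :=
  ∀ {S : Type} [Fintype S] [DecidableEq S] {M : CoxeterMatrix S} {k : Type} [Field k]
    (L : Lin M k) (s t : S), s ≠ t → M.M s t ≠ 0 → orderOf (L.f s * L.f t) = M.M s t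

/-- ROOT. -/
def RootStmt : Prop :=
  ∀ {S : Type} [Fintype S] [DecidableEq S] {M : CoxeterMatrix S} {k : Type} [Field k]
    (L : Lin M k) (x y : S) (i : ℕ), M.M x y ≠ 0 →
    (∀ u, (ref L.f x y i).1 u = u - L.B u (L.root x y i) • L.root x y i) ∧
    L.B (L.root x y i) (L.root x y i) = 2 ∧
    (∀ a, L.root x y i a ≠ 0 ↔ InSupp L.f x y i a)

/-- UNIQ. -/
def UniqStmt : Prop :=
  ∀ {S : Type} [Fintype S] [DecidableEq S] {M : CoxeterMatrix S} {k : Type} [Field k]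
    (L : Lin M k) (x y z w : S) (i j : ℕ), M.M x y ≠ 0 → M.M z w ≠ 0 →
    ref L.f x y i = ref L.f z w j → ∀ a, InSupp L.f x y i a ↔ InSupp L.f z w j a

/-- SUPP. -/
def SuppStmt : Prop :=
  ∀ {S : Type} [Fintype S] [DecidableEq S] {M : CoxeterMatrix S} {k : Type} [Field k]
    (L : Lin M k), L.Gen → ∀ (x y z w : S) (i j : ℕ), M.M x y ≠ 0 → M.M z w ≠ 0 →
    (ref L.f x y i * ref L.f z w j) ^ L.K = 1 →
    ∀ a b, InSupp L.f x y i a → InSupp L.f z w j b → M.M a b ≠ 0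

/-- ROT. -/
def RotStmt : Prop :=
  ∀ {S : Type} [Fintype S] [DecidableEq S] {M : CoxeterMatrix S} {k : Type} [Field k]
    (L : Lin M k) (x y s t : S) (v : L.iso) (n n' : ℕ), x ≠ y → s ≠ t → M.M x y ≠ 0 →
    M.M s t ≠ 0 →
    v * (L.f s * L.f t) ^ n * v⁻¹ = (L.f x * L.f y) ^ n' → (L.f x * L.f y) ^ n' ≠ 1 →
    v * (L.f s * L.f t) ^ (M.M s t / Nat.gcd (M.M s t) (M.M x y)) * v⁻¹ =
        (L.f x * L.f y) ^ (M.M x y / Nat.gcd (M.M s t) (M.M x y)) ∨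
      v * (L.f s * L.f t) ^ (M.M s t / Nat.gcd (M.M s t) (M.M x y)) * v⁻¹ =
        ((L.f x * L.f y) ^ (M.M x y / Nat.gcd (M.M s t) (M.M x y)))⁻¹

/-- PLANE. -/
def PlaneStmt : Prop :=
  ∀ {S : Type} [Fintype S] [DecidableEq S] {M : CoxeterMatrix S} {k : Type} [Field k]
    (L : Lin M k) (x y a b s t : S) (v : L.iso) (n n' l l' : ℕ), x ≠ y → a ≠ b → s ≠ t →
    M.M x y ≠ 0 → M.M a b ≠ 0 → M.M s t ≠ 0 →
    v * (L.f s * L.f t) ^ n * v⁻¹ = (L.f x * L.f y) ^ n' → (L.f x * L.f y) ^ n' ≠ 1 →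
    v * (L.f s * L.f t) ^ l * v⁻¹ = (L.f a * L.f b) ^ l' → (L.f a * L.f b) ^ l' ≠ 1 →
    (a = x ∨ a = y) ∧ (b = x ∨ b = y)

/-- GEN: existence of a generic representation over a finite field. -/
def GenStmt : Prop :=
  ∀ {S : Type} [Fintype S] [DecidableEq S] (M : CoxeterMatrix S),
    ∃ (k : Type) (_ : Field k) (_ : Finite k) (L : Lin M k), L.Gen

/-- FIN2 (assembly of the linear algebra). -/
def Fin2Stmt : Prop :=
  ∀ {S : Type} [Fintype S] (M : CoxeterMatrix S), Nonempty (Fin2 M)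

/-! ## Group theory modules -/

/-- ATOM: dual atoms (odd label) or type letters (even label). -/
def AtomStmt : Prop :=
  ∀ {A : Type} [Group A] (a b : A) (m : ℕ), 2 ≤ m → alt m a b = alt m b a →
    ∃ α : ℕ → A, α 0 = a ∧ α (m - 1) = b ∧ (∀ i, α (i + m) = α i) ∧
      (∀ i, alt m (α i) (α (i + 1)) = alt m (α (i + 1)) (α i)) ∧
      (Even m → ∀ i, α (i + 2) = α i) ∧
      (∀ i, α i ∈ Subgroup.closure {a, b})

/-- Any three pairwise finite generators of `S0` have at most one label `≥ 3`. -/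
def CondD {S : Type} (M : CoxeterMatrix S) (S0 : Set S) : Prop :=
  ∀ x ∈ S0, ∀ y ∈ S0, ∀ z ∈ S0, x ≠ y → x ≠ z → y ≠ z → M.M x y ≠ 0 → M.M x z ≠ 0 →
    M.M y z ≠ 0 → M.M x y = 2 ∨ (M.M x z = 2 ∧ M.M y z = 2)

/-- The arithmetic condition on a pair of labels. -/
def GoodPair (m m' : ℕ) : Prop :=
  Nat.gcd m' m = 1 ∨ m ∣ m' ∨ Even (m / Nat.gcd m' m)

/-- The arithmetic condition on the labels inside `S0`. -/
def CondG {S : Type} (M : CoxeterMatrix S) (S0 : Set S) : Prop :=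
  ∀ x ∈ S0, ∀ y ∈ S0, x ≠ y → M.M x y ≠ 0 → ∀ s t : S, s ≠ t → M.M s t ≠ 0 →
    GoodPair (M.M x y) (M.M s t)

/-- The properties of the letters of the blocked reflections. -/
structure Letters {S : Type} (M : CoxeterMatrix S) (S0 : Set S) {F A : Type} [Group F] [Group A]
    (f : S → F) (a : S → A) (ν : F → A) : Prop where
  one : ∀ x ∈ S0, ν (f x) = a x
  adj : ∀ x ∈ S0, ∀ y ∈ S0, x ≠ y → M.M x y ≠ 0 → ∀ i : ℕ,
    alt (M.M x y) (ν (ref f x y i)) (ν (ref f x y (i + 1))) =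
      alt (M.M x y) (ν (ref f x y (i + 1))) (ν (ref f x y i))
  even : ∀ x ∈ S0, ∀ y ∈ S0, x ≠ y → M.M x y ≠ 0 → Even (M.M x y) → ∀ i : ℕ,
    ν (ref f x y (i + 2)) = ν (ref f x y i)
  mem : ∀ x ∈ S0, ∀ y ∈ S0, M.M x y ≠ 0 → ∀ i : ℕ,
    ν (ref f x y i) ∈ Subgroup.closure {c | ∃ s, InSupp f x y i s ∧ c = a s}

/-- LETT: existence of the letters. -/
def LettStmt : Prop :=
  ∀ {S : Type} [Fintype S] (M : CoxeterMatrix S) (S0 : Set S) (P : Fin2 M) {A : Type} [Group A]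
    (a : S → A),
    (∀ x ∈ S0, ∀ y ∈ S0, M.M x y ≠ 0 → alt (M.M x y) (a x) (a y) = alt (M.M x y) (a y) (a x)) →
    ∃ ν : P.F → A, Letters M S0 P.f a ν

/-- The set of blocked reflections. -/
def blocked {S : Type} (M : CoxeterMatrix S) (S0 : Set S) {F : Type} [Group F] (f : S → F) :
    Set F :=
  {t | ∃ x ∈ S0, ∃ y ∈ S0, M.M x y ≠ 0 ∧ ∃ i : ℕ, t = ref f x y i}

/-- The window property. -/
def Win {S : Type} (M : CoxeterMatrix S) {F A : Type} [Group F] [Group A] (f : S → F)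
    (T : Set F) (ν : F → A) : Prop :=
  ∀ (v : F) (s t : S), M.M s t ≠ 0 →
    (∀ k : ℕ, v * ref f s t k * v⁻¹ ∉ T) ∨
    ∃ d j0 : ℕ, 0 < d ∧ d ∣ M.M s t ∧ j0 < d ∧
      (∀ k : ℕ, v * ref f s t k * v⁻¹ ∈ T ↔ k % d = j0) ∧
      ∀ k : ℕ, k % d = j0 →
        alt (M.M s t / d) (ν (v * ref f s t k * v⁻¹)) (ν (v * ref f s t (k + d) * v⁻¹)) =
        alt (M.M s t / d) (ν (v * ref f s t (k + d) * v⁻¹)) (ν (v * ref f s t k * v⁻¹))

/-- WIN: the window property holds. -/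
def WinStmt : Prop :=
  ∀ {S : Type} [Fintype S] (M : CoxeterMatrix S) (S0 : Set S) (P : Fin2 M) {A : Type} [Group A]
    (a : S → A) (ν : P.F → A), CondD M S0 → CondG M S0 →
    (∀ x ∈ S0, ∀ y ∈ S0, M.M x y ≠ 0 → alt (M.M x y) (a x) (a y) = alt (M.M x y) (a y) (a x)) →
    Letters M S0 P.f a ν → Win M P.f (blocked M S0 P.f) ν

/-- VRW: the window property gives a virtual retraction. -/
def VrwStmt : Prop :=
  ∀ {S : Type} (M : CoxeterMatrix S) {F A : Type} [Group F] [Finite F] [Group A] (f : S → F)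
    (T : Set F) (ν : F → A),
    (∀ s, f s * f s = 1) →
    (∀ s t, M.M s t ≠ 0 → (f s * f t) ^ M.M s t = 1) →
    Win M f T ν →
    ∀ (ι : A →* Gp M) (X : Set S) (gA : X → A), Subgroup.closure (Set.range gA) = ⊤ →
      (∀ x : X, ι (gA x) = gen M x.1) → (∀ x : X, f x.1 ∈ T) → (∀ x : X, ν (f x.1) = gA x) →
      VR ι

/-- VR2: a standard parabolic subgroup of local dihedral type is a virtual retract. -/
def VR2Stmt : Prop :=
  ∀ {S : Type} [Fintype S] (M : CoxeterMatrix S) (S0 : Set S), CondD M S0 → CondG M S0 →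
    ∀ Φ : Gp (res M S0) →* Gp M, (∀ x, Φ (gen (res M S0) x) = gen M x.1) → VR Φ

/-- AM2: the amalgam theorem. -/
def Am2Stmt : Prop :=
  ∀ {S : Type} [Fintype S] (M : CoxeterMatrix S) (S1 S2 : Set S), S1 ∪ S2 = Set.univ →
    (∀ x ∈ S1, x ∉ S2 → ∀ y ∈ S2, y ∉ S1 → M.M x y = 0) →
    CondD M (S1 ∩ S2) → CondG M (S1 ∩ S2) →
    RF (Gp (res M S1)) → RF (Gp (res M S2)) → RF (Gp M)

/-- PROD: direct products. -/
def ProdStmt : Prop :=
  ∀ {S : Type} (M : CoxeterMatrix S) (P Q : Set S), P ∪ Q = Set.univ → P ∩ Q = ∅ →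
    (∀ x ∈ P, ∀ y ∈ Q, M.M x y = 2) →
    RF (Gp (res M P)) → RF (Gp (res M Q)) → RF (Gp M)

/-- In every 4-clique the edges with label `≥ 3` are pairwise disjoint. -/
def H1 {S : Type} (M : CoxeterMatrix S) : Prop :=
  ∀ s x y z : S, s ≠ x → s ≠ y → s ≠ z → x ≠ y → x ≠ z → y ≠ z →
    M.M s x ≠ 0 → M.M s y ≠ 0 → M.M s z ≠ 0 → M.M x y ≠ 0 → M.M x z ≠ 0 → M.M y z ≠ 0 →
    M.M x y = 2 ∨ M.M x z = 2

/-- The arithmetic condition for the labels of edges lying in a triangle. -/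
def H2 {S : Type} (M : CoxeterMatrix S) : Prop :=
  ∀ x y z : S, x ≠ y → x ≠ z → y ≠ z → M.M x y ≠ 0 → M.M x z ≠ 0 → M.M y z ≠ 0 →
    ∀ s t : S, s ≠ t → M.M s t ≠ 0 → GoodPair (M.M x y) (M.M s t)

/-- All three-generator parabolic subgroups without infinite label are residually finite. -/
def H3 {S : Type} (M : CoxeterMatrix S) : Prop :=
  ∀ (T : Type) [Fintype T] (N : CoxeterMatrix T) (j : T → S), Function.Injective j →
    (∀ a b, N.M a b = M.M (j a) (j b)) → Fintype.card T = 3 → (∀ a b, N.M a b ≠ 0) → RF (Gp N)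

/-- IND2 (Theorem U). -/
def UStmt : Prop :=
  ∀ {S : Type} [Fintype S] (M : CoxeterMatrix S), H1 M → H2 M → H3 M → RF (Gp M)

/-- UNC: unconditional version. -/
def UncStmt : Prop :=
  ∀ {S : Type} [Fintype S] (M : CoxeterMatrix S), CondD M Set.univ → H2 M → RF (Gp M)

end Art
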