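import Pool.Agent.Helper44_Art.Stmt3

set_option autoImplicit false

/-!
# Wave 3: base triangles
-/

namespace Art

/-- SEMI: a semidirect product of a finitely generated residually finite group with a residually
finite group is residually finite. -/
def SemiStmt : Prop :=
  ∀ {K Q : Type} [Group K] [Group Q] (φ : Q →* MulAut K), Group.FG K → RF K → RF Q →
    RF (K ⋊[φ] Q)

/-- FINO: a group with a residually finite subgroup of finite index is residually finite. -/
def FinoStmt : Prop :=
  ∀ {G A : Type} [Group G] [Group A] (j : G →* A), Function.Injective j →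
    (j.range).FiniteIndex → RF G → RF A

/-- FREE: free groups of finite rank are residually finite. -/
def FreeStmt : Prop := ∀ n : ℕ, RF (FreeGroup (Fin n))

/-- T233: the braid group on four strands (type `A₃`). -/
def T233Stmt : Prop :=
  ∀ {S : Type} (M : CoxeterMatrix S) (a b c : S), a ≠ b → a ≠ c → b ≠ c →
    (∀ x, x = a ∨ x = b ∨ x = c) → M.M a b = 3 → M.M b c = 3 → M.M a c = 2 → RF (Gp M)

/-- T234: type `B₃`. -/
def T234Stmt : Prop :=
  ∀ {S : Type} (M : CoxeterMatrix S) (a b c : S), a ≠ b → a ≠ c → b ≠ c →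
    (∀ x, x = a ∨ x = b ∨ x = c) → M.M a b = 3 → M.M b c = 4 → M.M a c = 2 → RF (Gp M)

/-- T333: the affine type `Ã₂`. -/
def T333Stmt : Prop :=
  ∀ {S : Type} (M : CoxeterMatrix S) (a b c : S), a ≠ b → a ≠ c → b ≠ c →
    (∀ x, x = a ∨ x = b ∨ x = c) → M.M a b = 3 → M.M b c = 3 → M.M a c = 3 → RF (Gp M)

/-- T244: the affine type `C̃₂`. -/
def T244Stmt : Prop :=
  ∀ {S : Type} (M : CoxeterMatrix S) (x y z : S), x ≠ y → x ≠ z → y ≠ z →
    (∀ s, s = x ∨ s = y ∨ s = z) → M.M x y = 4 → M.M y z = 4 → M.M x z = 2 → RF (Gp M)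

end Art
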