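import Pool.Agent.Helper44_Art.Stmt4

set_option autoImplicit false

/-!
# The general theorem: links of vertices with an infinite label
-/

namespace Art

/-- The link of a vertex. -/
def lk {S : Type} (M : CoxeterMatrix S) (s : S) : Set S := {x | x ≠ s ∧ M.M s x ≠ 0}

/-- The link of every vertex with an infinite label is locally dihedral. -/
def LD {S : Type} (M : CoxeterMatrix S) : Prop :=
  ∀ s t : S, M.M s t = 0 → CondD M (lk M s)

/-- The labels in the link of every vertex with an infinite label are good. -/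
def LG {S : Type} (M : CoxeterMatrix S) : Prop :=
  ∀ s t : S, M.M s t = 0 → CondG' M (lk M s)

/-- The standard parabolic subgroups without infinite label are residually finite. -/
def CliqueRF {S : Type} (M : CoxeterMatrix S) : Prop :=
  ∀ (T : Type) [Fintype T] (N : CoxeterMatrix T) (j : T → S), Function.Injective j →
    (∀ a b, N.M a b = M.M (j a) (j b)) → (∀ a b, N.M a b ≠ 0) → RF (Gp N)

/-- UG. -/
def UGStmt : Prop :=
  ∀ {S : Type} [Fintype S] (M : CoxeterMatrix S), LD M → LG M → CliqueRF M → RF (Gp M)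

/-- The Coxeter graph of `N` is connected. -/
def Irr {T : Type} (N : CoxeterMatrix T) : Prop :=
  ∀ P : Set T, P.Nonempty → Pᶜ.Nonempty → ∃ x ∈ P, ∃ y ∈ Pᶜ, N.M x y ≠ 2

/-- The four triangles `A₃`, `B₃`, `Ã₂`, `C̃₂`. -/
def Tri {T : Type} (N : CoxeterMatrix T) : Prop :=
  ∃ a b c : T, a ≠ b ∧ a ≠ c ∧ b ≠ c ∧ (∀ x, x = a ∨ x = b ∨ x = c) ∧
    ((N.M a b = 3 ∧ N.M b c = 3 ∧ N.M a c = 2) ∨ (N.M a b = 3 ∧ N.M b c = 4 ∧ N.M a c = 2) ∨
      (N.M a b = 3 ∧ N.M b c = 3 ∧ N.M a c = 3) ∨ (N.M a b = 4 ∧ N.M b c = 4 ∧ N.M a c = 2))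

/-- The irreducible standard parabolic subgroups of rank at least three without infinite label,
other than the four triangles, are residually finite. -/
def CliqueH {S : Type} (M : CoxeterMatrix S) : Prop :=
  ∀ (T : Type) [Fintype T] (N : CoxeterMatrix T) (j : T → S), Function.Injective j →
    (∀ a b, N.M a b = M.M (j a) (j b)) → (∀ a b, N.M a b ≠ 0) → Irr N →
    3 ≤ Fintype.card T → ¬ Tri N → RF (Gp N)

/-- CL: reduction of the base cases. -/
def CLStmt : Prop :=
  ∀ {S : Type} (M : CoxeterMatrix S), CliqueH M → CliqueRF M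

end Art
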